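import Pool.Agent.P3G.Loop

/-!
# The case of two triangles, and no facets with more than four vertices (MP_a5fcbe_co)
-/

set_option autoImplicit false

namespace Pool.Agent.P3G

open Pool.Agent.P3F Multiset

/-- The facets of all sizes: `t3` of size `3`, ..., `t6` of size `6` and the sizes `x + 5`, `x ∈ X`. -/
def Yf (t3 t4 t5 t6 : ℕ) (X : Multiset ℕ) : Multiset ℕ :=
  replicate t3 3 + (replicate t4 4 + (replicate t5 5 + (replicate t6 6 + X.map (· + 5))))

theorem Tot34a (k : ℕ) : Tot (replicate 2 3 + replicate (k + 3) 4) := by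
  refine ⟨1, 1, 1, 0, 0, 0, _, e111 k, ?_⟩
  rw [show k + 3 = k + 1 + 1 + 1 by omega, replicate_succ, replicate_succ, replicate_succ]
  simp only [← singleton_add, replicate_succ, replicate_zero, add_zero, zero_add]
  abel

theorem Tot34b (k : ℕ) : Tot (replicate 4 3 + replicate k 4) := by
  rcases k with _ | k
  · refine ⟨0, 0, 0, 0, 0, 0, _, Der.done, ?_⟩
    simp only [← singleton_add, replicate_succ, replicate_zero, add_zero, zero_add]
  · refine ⟨0, 0, 1, 0, 0, 0, _, e001 k, ?_⟩
    simp only [← singleton_add, replicate_succ, replicate_zero, add_zero, zero_add]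
    abel

theorem Tot34c (s k : ℕ) : Tot (replicate (4 + 2 * s) 3 + replicate k 4) := by
  induction s with
  | zero => exact Tot34b k
  | succ s ih =>
    have h := ih.two
    rw [show 4 + 2 * (s + 1) = 4 + 2 * s + 1 + 1 by omega, replicate_succ, replicate_succ,
      cons_add, cons_add]
    exact h

theorem exists_max {X : Multiset ℕ} (h : X ≠ 0) : ∃ (x : ℕ) (X' : Multiset ℕ), X = x ::ₘ X' ∧
    ∀ y ∈ X', y ≤ x := by
  obtain ⟨x, hx, hx2⟩ := Multiset.exists_max_image (f := fun y : ℕ => y) h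
  obtain ⟨X', rfl⟩ := exists_cons_of_mem hx
  exact ⟨x, X', rfl, fun y hy => hx2 y (mem_cons_of_mem hy)⟩

theorem base_tot {q t4 t5 t6 x : ℕ} {X : Multiset ℕ} (hq : q ≤ t6)
    (h : Der 1 2 (x + 2) (replicate q 6 + (replicate t4 4 + (replicate t5 5 +
      (X.map (· + 5) + {3}))))) : Tot (Yf 2 (t4 + 1) (t5 + 1) t6 (x ::ₘ X)) := by
  rcases Nat.lt_or_ge q t6 with h1 | h1
  · obtain ⟨s, hs⟩ : ∃ s, t6 = q + s + 1 := ⟨t6 - q - 1, by omega⟩
    refine ⟨1, 2, 3, 0, 0, 0, _, T6s s (T h), ?_⟩
    unfold Yf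
    rw [hs, replicate_succ (n := t4), replicate_succ (n := t5), replicate_succ (n := q + s),
      replicate_add q s, map_cons]
    simp only [← singleton_add, replicate_succ, replicate_zero, add_zero, zero_add, Nat.reduceAdd]
    abel
  · have h2 : q = t6 := le_antisymm hq h1
    subst h2
    refine ⟨1, 2, x + 2, 0, 0, 0, _, h, ?_⟩
    unfold Yf
    rw [replicate_succ, replicate_succ, map_cons]
    simp only [← singleton_add, replicate_succ, replicate_zero, add_zero, zero_add]
    abel

theorem base2 {e t4 t5 t6 : ℕ} {X : Multiset ℕ} (he : 2 ≤ e) (h4 : 2 ≤ t4) (h5 : 1 ≤ t5)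
    (hX : ∀ x ∈ X, 2 ≤ x) (hrel : 2 * t4 + t5 + card X = 6 + 2 * e + X.sum)
    (hH : card (X.filter fun x => 2 * e < x + 2) ≤ 2)
    (hC : ∀ x ∈ X, x + 4 ≤ t4 + t5 + t6 + card X) : Tot (Yf 2 t4 t5 t6 X) := by
  by_cases hX0 : X = 0
  · subst hX0
    simp only [card_zero, sum_zero, add_zero] at hrel
    rcases Nat.eq_zero_or_pos t6 with h6 | h6
    · subst h6
      obtain ⟨j, hj⟩ : ∃ j, t5 = 2 * j + 2 := ⟨t5 / 2 - 1, by omega⟩
      obtain ⟨k, hk⟩ : ∃ k, t4 = k + 2 := ⟨t4 - 2, by omega⟩
      subst hj hk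
      refine ⟨1, 2, 2, 0, 0, 0, _, (tail5 k j).1, ?_⟩
      unfold Yf
      rw [map_zero]
      simp only [← singleton_add, replicate_succ, replicate_zero, add_zero, zero_add]
      abel
    · obtain ⟨s, hs⟩ : ∃ s, t6 = s + 1 := ⟨t6 - 1, by omega⟩
      obtain ⟨j, hj⟩ : ∃ j, t5 = j + 1 := ⟨t5 - 1, by omega⟩
      obtain ⟨k, hk⟩ : ∃ k, t4 = k + 1 := ⟨t4 - 1, by omega⟩
      subst hj hk hs
      have h1 := fin (e := e) (g := 1) (r4 := k) (r5 := j) (by omega) (by omega) (by omega)
      refine ⟨1, 2, 3, 0, 0, 0, _, T6s s h1, ?_⟩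
      unfold Yf
      rw [map_zero]
      simp only [← singleton_add, replicate_succ, replicate_zero, add_zero, zero_add]
      abel
  · obtain ⟨x1, X1, rfl, hm1⟩ := exists_max hX0
    obtain ⟨j, hj⟩ : ∃ j, t5 = j + 1 := ⟨t5 - 1, by omega⟩
    obtain ⟨k, hk⟩ : ∃ k, t4 = k + 1 := ⟨t4 - 1, by omega⟩
    subst hj hk
    have hx1 := hC x1 (mem_cons_self _ _)
    have hx12 := hX x1 (mem_cons_self _ _)
    rw [card_cons, sum_cons] at hrel
    rw [card_cons] at hx1
    have key : ∀ g r4 : ℕ, 1 ≤ g → 1 ≤ r4 → (∀ y ∈ X1, y ≤ g) →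
        2 * r4 + j + card X1 = 2 * e + 2 + g + X1.sum → r4 ≤ 2 * e + 1 + X1.sum →
        Der 1 2 (g + 2) (Zf r4 j X1) := by
      intro g r4 hg hr4 hyg hr hI
      by_cases hX1 : X1 = 0
      · subst hX1
        rw [Zf_zero]
        simp only [card_zero, sum_zero, add_zero] at hr hI
        exact fin (e := e) hr4 hr hI
      · obtain ⟨x2, X2, rfl, hm2⟩ := exists_max hX1
        rw [card_cons, sum_cons] at hr
        rw [sum_cons] at hI
        refine loop2 he hg hr4 (hX x2 (mem_cons_of_mem (mem_cons_self _ _)))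
          (hyg x2 (mem_cons_self _ _)) ?_ (by omega) (by omega)
        intro y hy
        refine ⟨hX y (mem_cons_of_mem (mem_cons_of_mem hy)), ?_⟩
        by_contra hcon
        push Not at hcon
        have h1 := hm2 y hy
        have h2 := hm1 x2 (mem_cons_self _ _)
        obtain ⟨X3, rfl⟩ := exists_cons_of_mem hy
        rw [filter_cons_of_pos (p := fun x => 2 * e < x + 2) _ (by omega),
          filter_cons_of_pos (p := fun x => 2 * e < x + 2) _ (by omega),
          filter_cons_of_pos (p := fun x => 2 * e < x + 2) _ (by omega),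
          card_cons, card_cons, card_cons] at hH
        omega
    have hce := card_le_sum (X := X1) fun y hy => hX y (mem_cons_of_mem hy)
    rcases Nat.lt_or_ge (2 * e + 1 + X1.sum) k with h1 | h1
    · obtain ⟨q, hq⟩ : ∃ q, k = 2 * e + 1 + X1.sum + q := ⟨k - (2 * e + 1 + X1.sum), by omega⟩
      obtain ⟨g, hg⟩ : ∃ g, x1 = g + 2 * q := ⟨x1 - 2 * q, by omega⟩
      have hq6 : q ≤ t6 := by omega
      have h2 := key g (2 * e + 1 + X1.sum) (by omega) (by omega) (by
        intro y hy
        have h3 := Multiset.single_le_sum (fun _ _ => Nat.zero_le _) y hy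
        omega) (by omega) le_rfl
      have h3 := six q h2
      refine base_tot hq6 ?_
      have e1 : replicate q 6 + (replicate k 4 + (replicate j 5 +
          (X1.map (· + 5) + {3}))) = replicate q 6 + (replicate q 4 +
            Zf (2 * e + 1 + X1.sum) j X1) := by
        unfold Zf
        rw [show k = q + (2 * e + 1 + X1.sum) by omega, replicate_add]
        abel
      rw [e1, show x1 + 2 = g + 2 + 2 * q by omega]
      exact h3
    · have h2 := key x1 k (by omega) (by omega) hm1 (by omega) h1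
      refine base_tot (Nat.zero_le t6) ?_
      have e1 : replicate 0 6 + (replicate k 4 + (replicate j 5 +
          (X1.map (· + 5) + {3}))) = Zf k j X1 := by
        unfold Zf
        rw [replicate_zero]
        abel
      rw [e1]
      exact h2

end Pool.Agent.P3G
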