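import Pool.Agent.P3G.Sched

/-!
# Decorated strips of hexagons (MP_a5fcbe_co)

In the state `(1, 2, 3)` a hexagon can be placed, and the state is `(1, 2, 3)` again. In such a strip every facet is a neighbour of the three facets before it. Six consecutive facets of
the strip get one vertex more (each) if two vertices are cut off, the vertex of the facets `0, 1, 3` and the one of the facets `2, 4, 5` of the six. Such blocks can overlap (`A j = true`: there is a block which ends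
with the facet `j`). So facets of the sizes `7, ..., 12` are obtained; six vertices need only two triangles.
-/

set_option autoImplicit false

namespace Pool.Agent.P3G

open Pool.Agent.P3F Multiset

/-- One step in a decorated strip. -/
theorem stepD (p5 p4 p3 p2 p1 q : Bool) (r : ℕ) {Z : Multiset ℕ}
    (h : Der (1 + p3.toNat + p1.toNat) (2 + p4.toNat + p3.toNat + p2.toNat)
      (3 + p5.toNat + p4.toNat + p3.toNat + p1.toNat) Z) :
    Der (1 + p2.toNat + q.toNat) (2 + p3.toNat + p2.toNat + p1.toNat)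
      (3 + p4.toNat + p3.toNat + p2.toNat + q.toNat)
      ((6 + (p5.toNat + p4.toNat + p3.toNat + p2.toNat + p1.toNat + q.toNat) + r) ::ₘ
        (replicate (r + p2.toNat + q.toNat) 3 + Z)) := by
  have h1 := Der.trunc r p2 q h
  have e1 : 1 + p3.toNat + p1.toNat + 1 + p2.toNat = 2 + p3.toNat + p2.toNat + p1.toNat := by omega
  have e2 : 2 + p4.toNat + p3.toNat + p2.toNat + 1 + q.toNat =
      3 + p4.toNat + p3.toNat + p2.toNat + q.toNat := by omega
  have e3 : 3 + p5.toNat + p4.toNat + p3.toNat + p1.toNat + 3 + r + p2.toNat + q.toNat =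
      6 + (p5.toNat + p4.toNat + p3.toNat + p2.toNat + p1.toNat + q.toNat) + r := by omega
  rw [e1, e2, e3] at h1
  exact h1

/-- A decorated strip. -/
theorem strip (A : ℕ → Bool) (l : ℕ → ℕ) (hA : ∀ i, i < 5 → A i = false) {Z : Multiset ℕ}
    (h : Der 1 2 3 Z) (N : ℕ) (hl : ∀ i, i < N → 6 + ((A i).toNat + (A (i + 1)).toNat +
      (A (i + 2)).toNat + (A (i + 3)).toNat + (A (i + 4)).toNat + (A (i + 5)).toNat) ≤ l i) :
    ∃ T : ℕ, Der (1 + (A (N + 2)).toNat + (A (N + 4)).toNat)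
      (2 + (A (N + 1)).toNat + (A (N + 2)).toNat + (A (N + 3)).toNat)
      (3 + (A N).toNat + (A (N + 1)).toNat + (A (N + 2)).toNat + (A (N + 4)).toNat)
      ((Multiset.range N).map l + (replicate T 3 + Z)) ∧
      T + 4 * ∑ j ∈ Finset.range N, (A j).toNat + 3 * (A N).toNat + 2 * (A (N + 1)).toNat +
        (A (N + 2)).toNat + (A (N + 3)).toNat + 6 * N = ∑ i ∈ Finset.range N, l i := by
  induction N with
  | zero =>
    refine ⟨0, ?_, ?_⟩
    · rw [hA 0 (by omega), hA 1 (by omega), hA 2 (by omega), hA 3 (by omega), hA 4 (by omega)]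
      simpa using h
    · rw [hA 0 (by omega), hA 1 (by omega), hA 2 (by omega), hA 3 (by omega)]
      simp
  | succ N ih =>
    obtain ⟨T, h1, h2⟩ := ih fun i hi => hl i (by omega)
    have h3 := hl N (by omega)
    obtain ⟨r, hr⟩ : ∃ r, l N = 6 + ((A N).toNat + (A (N + 1)).toNat + (A (N + 2)).toNat +
      (A (N + 3)).toNat + (A (N + 4)).toNat + (A (N + 5)).toNat) + r := ⟨_, by
        rw [← Nat.add_sub_cancel' h3]⟩
    have h4 := stepD (A N) (A (N + 1)) (A (N + 2)) (A (N + 3)) (A (N + 4)) (A (N + 5)) r h1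
    refine ⟨r + (A (N + 3)).toNat + (A (N + 5)).toNat + T, ?_, ?_⟩
    · rw [← hr] at h4
      have e : (Multiset.range (N + 1)).map l +
          (replicate (r + (A (N + 3)).toNat + (A (N + 5)).toNat + T) 3 + Z) =
          l N ::ₘ (replicate (r + (A (N + 3)).toNat + (A (N + 5)).toNat) 3 +
            ((Multiset.range N).map l + (replicate T 3 + Z))) := by
        rw [Multiset.range_succ, Multiset.map_cons,
          replicate_add (r + (A (N + 3)).toNat + (A (N + 5)).toNat) T]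
        simp only [← singleton_add]
        abel
      rw [e]
      exact h4
    · rw [Finset.sum_range_succ, Finset.sum_range_succ, show N + 1 + 1 = N + 2 by omega,
        show N + 1 + 2 = N + 3 by omega, show N + 1 + 3 = N + 4 by omega]
      omega

/-- The number of the blocks. -/
def cntB (l : ℕ → ℕ) (N : ℕ) : ℕ :=
  ∑ j ∈ Finset.range N, if 5 ≤ j ∧ (j + 1) % 6 + 7 ≤ l j then 1 else 0

theorem cntB_zero (l : ℕ → ℕ) : cntB l 0 = 0 := by
  simp [cntB]

theorem cntB_succ (l : ℕ → ℕ) (N : ℕ) :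
    cntB l (N + 1) = cntB l N + if 5 ≤ N ∧ (N + 1) % 6 + 7 ≤ l N then 1 else 0 := by
  rw [cntB, Finset.sum_range_succ, cntB]

theorem cntB_choose (l : ℕ → ℕ) (N β : ℕ) (h : β ≤ cntB l N) : ∃ N', N' ≤ N ∧ cntB l N' = β := by
  induction N with
  | zero =>
    rw [cntB_zero] at h
    exact ⟨0, le_rfl, by rw [cntB_zero]; omega⟩
  | succ N ih =>
    by_cases h1 : β ≤ cntB l N
    · obtain ⟨N', h2, h3⟩ := ih h1
      exact ⟨N', by omega, h3⟩
    · refine ⟨N + 1, le_rfl, ?_⟩
      rw [cntB_succ] at h ⊢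
      split_ifs at h ⊢ <;> omega

theorem sum_six (f : ℕ → ℕ) (a : ℕ) : ∑ i ∈ Finset.range (a + 6), f i =
    ∑ i ∈ Finset.range a, f i + (f a + f (a + 1) + f (a + 2) + f (a + 3) + f (a + 4) + f (a + 5)) := by
  rw [show a + 6 = a + 5 + 1 by omega, Finset.sum_range_succ, show a + 5 = a + 4 + 1 by omega,
    Finset.sum_range_succ, show a + 4 = a + 3 + 1 by omega, Finset.sum_range_succ,
    show a + 3 = a + 2 + 1 by omega, Finset.sum_range_succ, show a + 2 = a + 1 + 1 by omega,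
    Finset.sum_range_succ, Finset.sum_range_succ]
  omega

theorem low_aux {ρ : ℕ → ℕ} (hρ : ∀ i j, i ≤ j → ρ j ≤ ρ i) (h6 : ∀ i, ρ i ≤ 6) (v : ℕ) :
    ∑ i ∈ Finset.range (6 * v + 10), ρ i ≤
      60 + 6 * ∑ j ∈ Finset.range (6 * v + 5), if 5 ≤ j ∧ (j + 1) % 6 < ρ j then 1 else 0 := by
  induction v with
  | zero =>
    have h1 : ∑ i ∈ Finset.range (6 * 0 + 10), ρ i ≤ ∑ i ∈ Finset.range (6 * 0 + 10), 6 :=
      Finset.sum_le_sum fun i _ => h6 i
    rw [Finset.sum_const, Finset.card_range, smul_eq_mul] at h1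
    omega
  | succ v ih =>
    have e1 : 6 * (v + 1) + 10 = 6 * v + 10 + 6 := by omega
    have e2 : 6 * (v + 1) + 5 = 6 * v + 5 + 6 := by omega
    rw [e1, e2, sum_six _ (6 * v + 10), sum_six _ (6 * v + 5)]
    obtain ⟨a, ha⟩ : ∃ a, a = 6 * v + 5 := ⟨_, rfl⟩
    have ha2 : 6 * v + 10 = a + 5 := by omega
    have ha0 : a % 6 = 5 := by omega
    have ha5 : 5 ≤ a := by omega
    rw [ha2] at ih ⊢
    rw [← ha] at ih ⊢
    clear ha ha2 e1 e2
    have a1 := hρ (a + 5) (a + 5 + 1) (by omega)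
    have a2 := hρ (a + 5) (a + 5 + 2) (by omega)
    have a3 := hρ (a + 5) (a + 5 + 3) (by omega)
    have a4 := hρ (a + 5) (a + 5 + 4) (by omega)
    have a5 := hρ (a + 5) (a + 5 + 5) (by omega)
    have h7 := h6 (a + 5)
    have key : ∀ j t : ℕ, 5 ≤ j → (j + 1) % 6 = t → j ≤ a + 5 →
        (1 ≤ (if 5 ≤ j ∧ (j + 1) % 6 < ρ j then 1 else 0) ∨ ρ (a + 5) ≤ t) := by
      intro j t h1 h2 h3
      have h3' := hρ j (a + 5) h3
      by_cases h4 : (j + 1) % 6 < ρ j
      · left
        rw [if_pos ⟨h1, h4⟩]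
      · right
        omega
    have c0 := key a 0 (by omega) (by omega) (by omega)
    have c1 := key (a + 1) 1 (by omega) (by omega) (by omega)
    have c2 := key (a + 2) 2 (by omega) (by omega) (by omega)
    have c3 := key (a + 3) 3 (by omega) (by omega) (by omega)
    have c4 := key (a + 4) 4 (by omega) (by omega) (by omega)
    have c5 := key (a + 5) 5 (by omega) (by omega) (by omega)
    clear key hρ h6 ha0 ha5
    generalize (if 5 ≤ a ∧ (a + 1) % 6 < ρ a then 1 else 0) = y0 at *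
    generalize (if 5 ≤ a + 1 ∧ (a + 1 + 1) % 6 < ρ (a + 1) then 1 else 0) = y1 at *
    generalize (if 5 ≤ a + 2 ∧ (a + 2 + 1) % 6 < ρ (a + 2) then 1 else 0) = y2 at *
    generalize (if 5 ≤ a + 3 ∧ (a + 3 + 1) % 6 < ρ (a + 3) then 1 else 0) = y3 at *
    generalize (if 5 ≤ a + 4 ∧ (a + 4 + 1) % 6 < ρ (a + 4) then 1 else 0) = y4 at *
    generalize (if 5 ≤ a + 5 ∧ (a + 5 + 1) % 6 < ρ (a + 5) then 1 else 0) = y5 at *
    have hsum : ρ (a + 5) ≤ y0 + y1 + y2 + y3 + y4 + y5 := by omega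
    omega

theorem cntB_low {l : ℕ → ℕ} (hl : ∀ i j, i ≤ j → l j ≤ l i) (N : ℕ)
    (h12 : ∀ i, i < N → 7 ≤ l i ∧ l i ≤ 12) :
    ∑ i ∈ Finset.range N, l i ≤ 60 + 6 * cntB l N + 6 * N := by
  have h1 := low_aux (ρ := fun i => if i < N then l i - 6 else 0) (by
    intro i j hij
    split_ifs with h1 h2
    · have := hl i j hij
      omega
    · omega
    · omega
    · omega) (by
    intro i
    split_ifs with h1
    · have := h12 i h1
      omega
    · omega) N
  have h2 : ∑ i ∈ Finset.range (6 * N + 10), (if i < N then l i - 6 else 0) =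
      ∑ i ∈ Finset.range N, (l i - 6) := by
    rw [← Finset.sum_filter]
    refine Finset.sum_congr ?_ fun _ _ => rfl
    ext i
    simp only [Finset.mem_filter, Finset.mem_range]
    omega
  have h3 : ∑ j ∈ Finset.range (6 * N + 5),
      (if 5 ≤ j ∧ (j + 1) % 6 < (if j < N then l j - 6 else 0) then 1 else 0) = cntB l N := by
    unfold cntB
    rw [← Finset.sum_filter, ← Finset.sum_filter]
    refine Finset.sum_congr ?_ fun _ _ => rfl
    ext j
    simp only [Finset.mem_filter, Finset.mem_range]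
    constructor
    · rintro ⟨h4, h5, h6⟩
      split_ifs at h6 with h7
      · exact ⟨h7, h5, by omega⟩
      · omega
    · rintro ⟨h4, h5, h6⟩
      refine ⟨by omega, h5, ?_⟩
      rw [if_pos h4]
      omega
  rw [h2, h3] at h1
  have h4 : ∑ i ∈ Finset.range N, l i = ∑ i ∈ Finset.range N, (l i - 6) + 6 * N := by
    have h5 : ∑ i ∈ Finset.range N, l i = ∑ i ∈ Finset.range N, ((l i - 6) + 6) := by
      refine Finset.sum_congr rfl fun i hi => ?_
      have := h12 i (Finset.mem_range.1 hi)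
      omega
    rw [h5, Finset.sum_add_distrib, Finset.sum_const, Finset.card_range, smul_eq_mul]
    omega
  omega

/-- Facets of sizes at least `7`, in a decorated strip. -/
theorem stripL {l : ℕ → ℕ} (hl : ∀ i j, i ≤ j → l j ≤ l i) (N : ℕ) (h7 : ∀ i, i < N → 7 ≤ l i)
    {Z : Multiset ℕ} (h : Der 1 2 3 Z) : ∃ T : ℕ,
    Der 1 2 3 ((Multiset.range N).map l + (replicate T 3 + Z)) ∧
      T + 4 * cntB l N + 6 * N = ∑ i ∈ Finset.range N, l i := by
  have hA5 : ∀ i, i < 5 → (decide (5 ≤ i ∧ i < N ∧ (i + 1) % 6 + 7 ≤ l i)) = false := by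
    intro i hi
    rw [decide_eq_false_iff_not]
    omega
  have hAN : ∀ i, N ≤ i → (decide (5 ≤ i ∧ i < N ∧ (i + 1) % 6 + 7 ≤ l i)) = false := by
    intro i hi
    rw [decide_eq_false_iff_not]
    omega
  obtain ⟨T, h1, h2⟩ := strip (fun j => decide (5 ≤ j ∧ j < N ∧ (j + 1) % 6 + 7 ≤ l j)) l hA5 h N (by
    intro i hi
    have hi7 := h7 i hi
    have key : ∀ j : ℕ, i ≤ j →
        ((decide (5 ≤ j ∧ j < N ∧ (j + 1) % 6 + 7 ≤ l j)).toNat = 0 ∨
          ((decide (5 ≤ j ∧ j < N ∧ (j + 1) % 6 + 7 ≤ l j)).toNat = 1 ∧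
            (j + 1) % 6 + 7 ≤ l i)) := by
      intro j hj
      by_cases hp : 5 ≤ j ∧ j < N ∧ (j + 1) % 6 + 7 ≤ l j
      · right
        rw [decide_eq_true hp]
        exact ⟨rfl, le_trans hp.2.2 (hl i j hj)⟩
      · left
        rw [decide_eq_false hp]
        rfl
    have k0 := key i le_rfl
    have k1 := key (i + 1) (by omega)
    have k2 := key (i + 2) (by omega)
    have k3 := key (i + 3) (by omega)
    have k4 := key (i + 4) (by omega)
    have k5 := key (i + 5) (by omega)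
    generalize (decide (5 ≤ i ∧ i < N ∧ (i + 1) % 6 + 7 ≤ l i)).toNat = y0 at *
    generalize (decide (5 ≤ i + 1 ∧ i + 1 < N ∧ (i + 1 + 1) % 6 + 7 ≤ l (i + 1))).toNat = y1 at *
    generalize (decide (5 ≤ i + 2 ∧ i + 2 < N ∧ (i + 2 + 1) % 6 + 7 ≤ l (i + 2))).toNat = y2 at *
    generalize (decide (5 ≤ i + 3 ∧ i + 3 < N ∧ (i + 3 + 1) % 6 + 7 ≤ l (i + 3))).toNat = y3 at *
    generalize (decide (5 ≤ i + 4 ∧ i + 4 < N ∧ (i + 4 + 1) % 6 + 7 ≤ l (i + 4))).toNat = y4 at *
    generalize (decide (5 ≤ i + 5 ∧ i + 5 < N ∧ (i + 5 + 1) % 6 + 7 ≤ l (i + 5))).toNat = y5 at *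
    have h6 : i % 6 = 0 ∨ i % 6 = 1 ∨ i % 6 = 2 ∨ i % 6 = 3 ∨ i % 6 = 4 ∨ i % 6 = 5 := by omega
    rcases h6 with h6 | h6 | h6 | h6 | h6 | h6
    · have m0 : (i + 1) % 6 = 1 := by omega
      have m1 : (i + 1 + 1) % 6 = 2 := by omega
      have m2 : (i + 2 + 1) % 6 = 3 := by omega
      have m3 : (i + 3 + 1) % 6 = 4 := by omega
      have m4 : (i + 4 + 1) % 6 = 5 := by omega
      have m5 : (i + 5 + 1) % 6 = 0 := by omega
      rw [m0] at k0; rw [m1] at k1; rw [m2] at k2; rw [m3] at k3; rw [m4] at k4; rw [m5] at k5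
      clear key hA5 hAN hl h7 m0 m1 m2 m3 m4 m5
      omega
    · have m0 : (i + 1) % 6 = 2 := by omega
      have m1 : (i + 1 + 1) % 6 = 3 := by omega
      have m2 : (i + 2 + 1) % 6 = 4 := by omega
      have m3 : (i + 3 + 1) % 6 = 5 := by omega
      have m4 : (i + 4 + 1) % 6 = 0 := by omega
      have m5 : (i + 5 + 1) % 6 = 1 := by omega
      rw [m0] at k0; rw [m1] at k1; rw [m2] at k2; rw [m3] at k3; rw [m4] at k4; rw [m5] at k5
      clear key hA5 hAN hl h7 m0 m1 m2 m3 m4 m5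
      omega
    · have m0 : (i + 1) % 6 = 3 := by omega
      have m1 : (i + 1 + 1) % 6 = 4 := by omega
      have m2 : (i + 2 + 1) % 6 = 5 := by omega
      have m3 : (i + 3 + 1) % 6 = 0 := by omega
      have m4 : (i + 4 + 1) % 6 = 1 := by omega
      have m5 : (i + 5 + 1) % 6 = 2 := by omega
      rw [m0] at k0; rw [m1] at k1; rw [m2] at k2; rw [m3] at k3; rw [m4] at k4; rw [m5] at k5
      clear key hA5 hAN hl h7 m0 m1 m2 m3 m4 m5
      omega
    · have m0 : (i + 1) % 6 = 4 := by omega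
      have m1 : (i + 1 + 1) % 6 = 5 := by omega
      have m2 : (i + 2 + 1) % 6 = 0 := by omega
      have m3 : (i + 3 + 1) % 6 = 1 := by omega
      have m4 : (i + 4 + 1) % 6 = 2 := by omega
      have m5 : (i + 5 + 1) % 6 = 3 := by omega
      rw [m0] at k0; rw [m1] at k1; rw [m2] at k2; rw [m3] at k3; rw [m4] at k4; rw [m5] at k5
      clear key hA5 hAN hl h7 m0 m1 m2 m3 m4 m5
      omega
    · have m0 : (i + 1) % 6 = 5 := by omega
      have m1 : (i + 1 + 1) % 6 = 0 := by omega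
      have m2 : (i + 2 + 1) % 6 = 1 := by omega
      have m3 : (i + 3 + 1) % 6 = 2 := by omega
      have m4 : (i + 4 + 1) % 6 = 3 := by omega
      have m5 : (i + 5 + 1) % 6 = 4 := by omega
      rw [m0] at k0; rw [m1] at k1; rw [m2] at k2; rw [m3] at k3; rw [m4] at k4; rw [m5] at k5
      clear key hA5 hAN hl h7 m0 m1 m2 m3 m4 m5
      omega
    · have m0 : (i + 1) % 6 = 0 := by omega
      have m1 : (i + 1 + 1) % 6 = 1 := by omega
      have m2 : (i + 2 + 1) % 6 = 2 := by omega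
      have m3 : (i + 3 + 1) % 6 = 3 := by omega
      have m4 : (i + 4 + 1) % 6 = 4 := by omega
      have m5 : (i + 5 + 1) % 6 = 5 := by omega
      rw [m0] at k0; rw [m1] at k1; rw [m2] at k2; rw [m3] at k3; rw [m4] at k4; rw [m5] at k5
      clear key hA5 hAN hl h7 m0 m1 m2 m3 m4 m5
      omega)
  rw [hAN (N + 2) (by omega), hAN (N + 4) (by omega), hAN (N + 1) (by omega),
    hAN (N + 3) (by omega), hAN N le_rfl] at h1
  rw [hAN (N + 2) (by omega), hAN (N + 1) (by omega), hAN (N + 3) (by omega), hAN N le_rfl] at h2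
  refine ⟨T, by simpa using h1, ?_⟩
  have h3 : ∑ j ∈ Finset.range N, (decide (5 ≤ j ∧ j < N ∧ (j + 1) % 6 + 7 ≤ l j)).toNat =
      cntB l N := by
    unfold cntB
    refine Finset.sum_congr rfl fun j hj => ?_
    have hj' := Finset.mem_range.1 hj
    by_cases hp : 5 ≤ j ∧ (j + 1) % 6 + 7 ≤ l j
    · rw [if_pos hp, decide_eq_true ⟨hp.1, hj', hp.2⟩]
      rfl
    · rw [if_neg hp, decide_eq_false (fun h => hp ⟨h.1, h.2.2⟩)]
      rfl
  rw [h3] at h2
  simp only [Bool.toNat_false, mul_zero, add_zero] at h2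
  exact h2

end Pool.Agent.P3G
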