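import Pool.Agent.P3G.Ra
import Pool.Agent.P3F.MainB

/-!
# From sequences to multisets (MP_a5fcbe_co)
-/

set_option autoImplicit false

namespace Pool.Agent.P3G

open Pool.Agent.P3F Multiset

theorem map_toM (p : ℕ →₀ ℕ) (f : ℕ → ℕ) :
    ((Finsupp.toMultiset p).map f).sum = ∑ k ∈ p.support, f k * p k := by
  rw [Finsupp.toMultiset_apply, Finsupp.sum]
  induction p.support using Finset.induction_on with
  | empty => simp
  | insert a s ha ih =>
    rw [Finset.sum_insert ha, Finset.sum_insert ha, Multiset.map_add, Multiset.sum_add, ih,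
      Multiset.map_nsmul, Multiset.sum_nsmul]
    simp [mul_comm]

theorem filter_map_sum (Y : Multiset ℕ) (q : ℕ → Prop) [DecidablePred q] (f : ℕ → ℕ) :
    ((Y.filter q).map f).sum = (Y.map fun k => if q k then f k else 0).sum := by
  induction Y using Multiset.induction_on with
  | empty => simp
  | cons a Y ih =>
    rw [Multiset.map_cons, Multiset.sum_cons, Multiset.filter_cons]
    split_ifs with h
    · rw [Multiset.map_add, Multiset.sum_add, ih, Multiset.map_singleton, Multiset.sum_singleton]
    · rw [zero_add, zero_add, ih]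

theorem map_toM_filter (p : ℕ →₀ ℕ) (q : ℕ → Prop) [DecidablePred q] (f : ℕ → ℕ) :
    (((Finsupp.toMultiset p).filter q).map f).sum = ∑ k ∈ p.support with q k, f k * p k := by
  rw [filter_map_sum, map_toM, Finset.sum_filter]
  refine Finset.sum_congr rfl fun k _ => ?_
  split_ifs
  · rfl
  · rw [zero_mul]

theorem card_toM_filter (p : ℕ →₀ ℕ) (q : ℕ → Prop) [DecidablePred q] :
    card ((Finsupp.toMultiset p).filter q) = ∑ k ∈ p.support with q k, p k := by
  have h := map_toM_filter p q fun _ => 1
  rw [Multiset.map_const', Multiset.sum_replicate, smul_eq_mul, mul_one] at h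
  rw [h]
  exact Finset.sum_congr rfl fun k _ => one_mul _

theorem card_toM (p : ℕ →₀ ℕ) : card (Finsupp.toMultiset p) = ∑ k ∈ p.support, p k := by
  have h := map_toM p fun _ => 1
  rw [Multiset.map_const', Multiset.sum_replicate, smul_eq_mul, mul_one] at h
  rw [h]
  exact Finset.sum_congr rfl fun k _ => one_mul _

theorem mem_toM {p : ℕ →₀ ℕ} {k : ℕ} : k ∈ Finsupp.toMultiset p ↔ k ∈ p.support :=
  Finsupp.mem_toMultiset p k

theorem split5 {Y : Multiset ℕ} (h3 : ∀ k ∈ Y, 3 ≤ k) :
    Y = replicate (count 3 Y) 3 + (replicate (count 4 Y) 4 + Y.filter fun k => 5 ≤ k) := by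
  ext a
  rw [count_add, count_add, count_replicate, count_replicate, count_filter]
  by_cases h0 : a ∈ Y
  · have h1 := h3 a h0
    rcases Nat.lt_or_ge a 5 with h2 | h2
    · interval_cases a
      · simp
      · simp
    · rw [if_neg (by omega), if_neg (by omega), if_pos h2]
      omega
  · have h1 := count_eq_zero_of_notMem h0
    rw [h1]
    split_ifs with h2 h3 h4 h5 h6 <;> subst_vars <;> omega

theorem split7 {Y : Multiset ℕ} (h3 : ∀ k ∈ Y, 3 ≤ k) :
    Y = Yf (count 3 Y) (count 4 Y) (count 5 Y) (count 6 Y)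
      ((Y.filter fun k => 7 ≤ k).map (· - 5)) := by
  have e1 : ((Y.filter fun k => 7 ≤ k).map (· - 5)).map (· + 5) = Y.filter fun k => 7 ≤ k := by
    rw [Multiset.map_map]
    conv_rhs => rw [← Multiset.map_id (Y.filter fun k => 7 ≤ k)]
    refine Multiset.map_congr rfl fun k hk => ?_
    have := (mem_filter.1 hk).2
    simp only [Function.comp_apply, id_eq]
    omega
  unfold Yf
  rw [e1]
  ext a
  rw [count_add, count_add, count_add, count_add, count_replicate, count_replicate,
    count_replicate, count_replicate, count_filter]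
  by_cases h0 : a ∈ Y
  · have h1 := h3 a h0
    rcases Nat.lt_or_ge a 7 with h2 | h2
    · interval_cases a
      · simp
      · simp
      · simp
      · simp
    · rw [if_neg (by omega), if_neg (by omega), if_neg (by omega), if_neg (by omega), if_pos h2]
      omega
  · have h1 := count_eq_zero_of_notMem h0
    rw [h1]
    split_ifs <;> subst_vars <;> omega

theorem sum_Yf (t3 t4 t5 t6 : ℕ) (X : Multiset ℕ) :
    (Yf t3 t4 t5 t6 X).sum = 3 * t3 + 4 * t4 + 5 * t5 + 6 * t6 + X.sum + 5 * card X := by
  unfold Yf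
  rw [sum_add, sum_add, sum_add, sum_add, sum_replicate, sum_replicate, sum_replicate,
    sum_replicate, sum_map_add, map_id', map_const', sum_replicate]
  simp only [smul_eq_mul]
  ring

theorem card_Yf (t3 t4 t5 t6 : ℕ) (X : Multiset ℕ) :
    card (Yf t3 t4 t5 t6 X) = t3 + t4 + t5 + t6 + card X := by
  unfold Yf
  rw [card_add, card_add, card_add, card_add, card_replicate, card_replicate, card_replicate,
    card_replicate, card_map]
  ring

/-- Part one. -/
theorem suf1 {Y : Multiset ℕ} (h3 : ∀ k ∈ Y, 3 ≤ k) (he : Even Y.sum)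
    (h : ((Y.filter fun k => 5 ≤ k).map (· - 4)).sum + 4 ≤ count 3 Y) : Tot Y := by
  rw [split5 h3]
  have h5 : ∀ k ∈ Y.filter (fun k => 5 ≤ k), 5 ≤ k := fun k hk => (mem_filter.1 hk).2
  have e1 : (Y.filter fun k => 5 ≤ k).sum =
      ((Y.filter fun k => 5 ≤ k).map (· - 4)).sum + 4 * card (Y.filter fun k => 5 ≤ k) := by
    generalize Y.filter (fun k => 5 ≤ k) = W at h5
    induction W using Multiset.induction_on with
    | empty => simp
    | cons a W ih =>
      have h6 := ih fun k hk => h5 k (mem_cons_of_mem hk)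
      have h7 := h5 a (mem_cons_self _ _)
      rw [sum_cons, map_cons, sum_cons, card_cons, h6]
      omega
  refine many3 _ _ _ h5 (by omega) ?_
  rw [split5 h3, sum_add, sum_add, sum_replicate, sum_replicate, smul_eq_mul, smul_eq_mul] at he
  obtain ⟨s, hs⟩ := he
  exact ⟨s - 2 * count 4 Y, by omega⟩

theorem sum_sub {W : Multiset ℕ} (h : ∀ k ∈ W, 7 ≤ k) :
    (W.map (· - 5)).sum = (W.map (· - 6)).sum + card W := by
  induction W using Multiset.induction_on with
  | empty => simp
  | cons a W ih =>
    have h6 := ih fun k hk => h k (mem_cons_of_mem hk)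
    have h7 := h a (mem_cons_self _ _)
    rw [map_cons, sum_cons, map_cons, sum_cons, card_cons, h6]
    omega

theorem filter_X {Y : Multiset ℕ} {m : ℕ} (hm : 6 ≤ m) :
    ((Y.filter fun k => 7 ≤ k).map (· - 5)).filter (fun x => m < x + 5) =
      (Y.filter fun k => m < k).map (· - 5) := by
  rw [filter_map, filter_filter]
  congr 1
  refine filter_congr fun k _ => ?_
  simp only [Function.comp_apply]
  omega

/-- Part two. -/
theorem suf2 {Y : Multiset ℕ} {m : ℕ} (h3 : ∀ k ∈ Y, 3 ≤ k) (he : Even Y.sum)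
    (hC : ∀ k ∈ Y, k + 1 ≤ card Y) (hm : 6 ≤ m) (c3 : 2 ≤ count 3 Y) (c4 : 4 ≤ count 3 Y + count 4 Y)
    (c5 : 1 ≤ count 5 Y) (h : m + 5 + ((Y.filter fun k => 7 ≤ k).map (· - 6)).sum ≤
      count 3 Y + 2 * count 4 Y + count 5 Y)
    (hH : card (Y.filter fun k => m < k) ≤ 2 ∨
      ((Y.filter fun k => m < k).map (· - m)).sum + 2 ≤ count 3 Y) : Tot Y := by
  have hsp := split7 h3
  have hf := filter_X (Y := Y) hm
  have e1 := sum_sub (W := Y.filter fun k => 7 ≤ k) fun k hk => (mem_filter.1 hk).2
  have e2 := card_map (· - 5) (Y.filter fun k => 7 ≤ k)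
  have hmem : ∀ x ∈ (Y.filter fun k => 7 ≤ k).map (· - 5), 2 ≤ x ∧ x + 5 ∈ Y := by
    intro x hx
    obtain ⟨k, hk, rfl⟩ := mem_map.1 hx
    obtain ⟨h1, h2⟩ := mem_filter.1 hk
    refine ⟨by omega, ?_⟩
    rw [show k - 5 + 5 = k by omega]
    exact h1
  generalize (Y.filter fun k => 7 ≤ k).map (· - 5) = X at hsp hf e1 e2 hmem
  have hs := sum_Yf (count 3 Y) (count 4 Y) (count 5 Y) (count 6 Y) X
  have hc := card_Yf (count 3 Y) (count 4 Y) (count 5 Y) (count 6 Y) X
  rw [← hsp] at hs hc
  obtain ⟨s, hs'⟩ : ∃ s, count 3 Y = s + 2 := ⟨count 3 Y - 2, by omega⟩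
  rw [hsp, hs']
  refine main s _ _ _ m X (by omega) c5 hm (fun x hx => (hmem x hx).1) (by omega) ?_ ?_ ?_
  · obtain ⟨r, hr⟩ := he
    exact ⟨(3 * (s + 2) + 2 * count 4 Y + count 5 Y + card X - 12 - X.sum) / 2, by omega⟩
  · intro x hx
    have h1 := hC _ (hmem x hx).2
    omega
  · rw [hf, card_map]
    rcases hH with h1 | h1
    · exact Or.inl h1
    · right
      have e3 : (X.map fun x => x + 5 - m).sum = ((Y.filter fun k => m < k).map (· - m)).sum := by
        have e4 : (X.map fun x => x + 5 - m).sum =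
            ((X.filter fun x => m < x + 5).map fun x => x + 5 - m).sum := by
          rw [filter_map_sum]
          refine congrArg _ (map_congr rfl fun x _ => ?_)
          split_ifs <;> omega
        rw [e4, hf, map_map]
        refine congrArg _ (map_congr rfl fun k hk => ?_)
        have := (mem_filter.1 hk).2
        simp only [Function.comp_apply]
        omega
      omega

end Pool.Agent.P3G
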