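import Pool.Agent.P3G.MainZ
import Pool.Agent.P3G.Strip
import Pool.Agent.P3G.Trans

/-!
# Facets of sizes `7, ..., 12` in the state `(1, 2, 3)` (MP_a5fcbe_co)

The largest of them are placed in a decorated strip (`stripL`), the other ones by `mainZ`.
-/

set_option autoImplicit false

namespace Pool.Agent.P3G

open Pool.Agent.P3F Multiset

theorem exists_sorted (n : ℕ) : ∀ L : Multiset ℕ, card L = n → ∃ l : ℕ → ℕ,
    (∀ i j, i ≤ j → l j ≤ l i) ∧ L = (Multiset.range n).map l ∧ (∀ i, i < n → l i ∈ L) ∧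
      ∀ i, n ≤ i → l i = 0 := by
  induction n with
  | zero =>
    intro L hL
    rw [card_eq_zero] at hL
    subst hL
    exact ⟨fun _ => 0, fun _ _ _ => le_rfl, by simp, fun i hi => absurd hi (Nat.not_lt_zero i),
      fun _ _ => rfl⟩
  | succ n ih =>
    intro L hL
    have hL0 : L ≠ 0 := by
      rintro rfl
      simp at hL
    obtain ⟨a, L', rfl, hmax⟩ := exists_max hL0
    rw [card_cons] at hL
    obtain ⟨l, h1, h2, h3, h4⟩ := ih L' (by omega)
    refine ⟨fun i => Nat.casesOn i a l, ?_, ?_, ?_, ?_⟩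
    · intro i j hij
      rcases j with _ | j
      · rcases i with _ | i
        · exact le_rfl
        · omega
      · rcases i with _ | i
        · show l j ≤ a
          rcases Nat.lt_or_ge j n with h5 | h5
          · exact hmax _ (h3 j h5)
          · rw [h4 j h5]
            exact Nat.zero_le a
        · exact h1 i j (by omega)
    · rw [Nat.add_comm n 1, Multiset.range_add, Multiset.map_add, Multiset.map_map]
      have e : ((fun i : ℕ => (Nat.casesOn i a l : ℕ)) ∘ fun x => 1 + x) = l := by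
        funext x
        simp only [Function.comp_apply, Nat.add_comm 1 x]
      rw [e, ← h2]
      simp [Multiset.range_succ]
    · intro i hi
      rcases i with _ | i
      · exact mem_cons_self _ _
      · exact mem_cons_of_mem (h3 i (by omega))
    · intro i hi
      rcases i with _ | i
      · omega
      · exact h4 i (by omega)

theorem sum6 {W : Multiset ℕ} (h : ∀ k ∈ W, 7 ≤ k) :
    W.sum = (W.map (· - 6)).sum + 6 * card W := by
  induction W using Multiset.induction_on with
  | empty => simp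
  | cons a W ih =>
    have h6 := ih fun k hk => h k (mem_cons_of_mem hk)
    have h7 := h a (mem_cons_self _ _)
    rw [sum_cons, map_cons, sum_cons, card_cons, h6]
    omega

theorem map_back {W : Multiset ℕ} (h : ∀ k ∈ W, 7 ≤ k) :
    (W.map (· - 5)).map (· + 5) = W := by
  rw [Multiset.map_map]
  conv_rhs => rw [← Multiset.map_id W]
  refine Multiset.map_congr rfl fun k hk => ?_
  have := h k hk
  simp only [Function.comp_apply, id_eq]
  omega

theorem coreZ {c0 r4 r5 r6 : ℕ} {L : Multiset ℕ} (hL : ∀ k ∈ L, 7 ≤ k ∧ k ≤ 12) (hc : 2 ≤ c0)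
    (hE : (L.map (· - 6)).sum + 168 ≤ 3 * c0 + 2 * r4 + r5)
    (hpar : ∃ e, 3 * c0 + 2 * r4 + r5 = 2 * e + (L.map (· - 6)).sum) :
    Der 1 2 3 (Yf c0 r4 r5 r6 (L.map (· - 5))) := by
  obtain ⟨e, he⟩ := hpar
  have hL7 : ∀ k ∈ L, 7 ≤ k := fun k hk => (hL k hk).1
  have hX : ∀ W : Multiset ℕ, (∀ k ∈ W, 7 ≤ k ∧ k ≤ 12) →
      ∀ x ∈ W.map (· - 5), 2 ≤ x ∧ x + 5 ≤ 12 := by
    intro W hW x hx
    obtain ⟨k, hk, rfl⟩ := mem_map.1 hx
    have := hW k hk
    omega
  by_cases hcase : (L.map (· - 6)).sum + 13 ≤ c0 + 2 * r4 + r5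
  · obtain ⟨s, rfl⟩ : ∃ s, c0 = s + 1 := ⟨c0 - 1, by omega⟩
    have e1 := sum_sub hL7
    refine mainZ s r4 r5 r6 12 _ (by omega) (by omega) (hX L hL) ?_
      ⟨(3 * (s + 1) + 2 * r4 + r5 + card (L.map (· - 5)) - 6 - (L.map (· - 5)).sum) / 2, ?_⟩
    · rw [e1, card_map]
      omega
    · rw [e1, card_map]
      omega
  · obtain ⟨l, l1, l2, l3, l4⟩ := exists_sorted (card L) L rfl
    have hsum : L.sum = ∑ i ∈ Finset.range (card L), l i := by
      conv_lhs => rw [l2]
      rfl
    have e6 := sum6 hL7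
    have hB := cntB_low l1 (card L) fun i hi => hL _ (l3 i hi)
    obtain ⟨β, hβ⟩ : ∃ β, β = ((L.map (· - 6)).sum + 13 - (c0 + 2 * r4 + r5) + 3) / 4 := ⟨_, rfl⟩
    obtain ⟨N, hN, hNβ⟩ := cntB_choose l (card L) β (by omega)
    have hBN := cntB_low l1 N fun i hi => hL _ (l3 i (by omega))
    obtain ⟨R, hR⟩ : ∃ R : Multiset ℕ, R = (Multiset.range (card L - N)).map fun i => l (N + i) :=
      ⟨_, rfl⟩
    have hsplit : L = (Multiset.range N).map l + R := by
      rw [hR]
      conv_lhs => rw [l2, show card L = N + (card L - N) by omega, Multiset.range_add,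
        Multiset.map_add, Multiset.map_map]
      rfl
    have hRL : ∀ k ∈ R, 7 ≤ k ∧ k ≤ 12 := by
      intro k hk
      refine hL k ?_
      rw [hsplit]
      exact mem_add.2 (Or.inr hk)
    have hR7 : ∀ k ∈ R, 7 ≤ k := fun k hk => (hRL k hk).1
    have eR := sum6 hR7
    have eR5 := sum_sub hR7
    have hcard : card L = N + card R := by
      conv_lhs => rw [hsplit]
      rw [card_add, card_map, card_range]
    have hsum2 : L.sum = ∑ i ∈ Finset.range N, l i + R.sum := by
      conv_lhs => rw [hsplit]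
      rw [sum_add]
      rfl
    -- the strip
    obtain ⟨T, hT1, hT2⟩ : ∃ T : ℕ, (∀ Z, Der 1 2 3 Z →
        Der 1 2 3 ((Multiset.range N).map l + (replicate T 3 + Z))) ∧
        T + 4 * cntB l N + 6 * N = ∑ i ∈ Finset.range N, l i := by
      refine ⟨∑ i ∈ Finset.range N, l i - 4 * cntB l N - 6 * N, ?_, ?_⟩
      · intro Z hZ
        obtain ⟨T, t1, t2⟩ := stripL l1 N (fun i hi => hL7 _ (l3 i (by omega))) hZ
        have : T = ∑ i ∈ Finset.range N, l i - 4 * cntB l N - 6 * N := by omega
        rw [← this]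
        exact t1
      · obtain ⟨T, t1, t2⟩ := stripL l1 N (fun i hi => hL7 _ (l3 i (by omega))) (z34 0 0).2
        omega
    rw [hNβ] at hT2 hBN
    obtain ⟨s, hs⟩ : ∃ s, c0 = T + (s + 1) := ⟨c0 - T - 1, by omega⟩
    have hmain : Der 1 2 3 (Yf (s + 1) r4 r5 r6 (R.map (· - 5))) := by
      refine mainZ s r4 r5 r6 12 _ (by omega) (by omega) (hX R hRL) ?_
        ⟨(3 * (s + 1) + 2 * r4 + r5 + card (R.map (· - 5)) - 6 - (R.map (· - 5)).sum) / 2, ?_⟩
      · rw [eR5, card_map]
        omega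
      · rw [eR5, card_map]
        omega
    have h1 := hT1 _ hmain
    have e1 : Yf c0 r4 r5 r6 (L.map (· - 5)) =
        (Multiset.range N).map l + (replicate T 3 + Yf (s + 1) r4 r5 r6 (R.map (· - 5))) := by
      unfold Yf
      rw [map_back hL7, map_back hR7, hs, replicate_add T (s + 1)]
      conv_lhs => rw [hsplit]
      abel
    rw [e1]
    exact h1

end Pool.Agent.P3G
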