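import Pool.Agent.P3F.Suf

/-!
# The game (MP_a5fcbe_co)

`St u v w M`: there is a 3-polytope with three facets of sizes `u`, `v`, `w` which meet in a known vertex of degree three, the sizes of the other facets are `M`.
`Der a b c Z`: from each such state with `u`, `v`, `w` there is a construction of a 3-polytope with the sizes `u + a`, `v + b`, `w + c`, `M` and `Z` (`Der.sound`).
The rules: `trunc`: the vertex is cut off; the two new vertices of the first facet are cut off if `s1 = true`, `s2 = true`, respectively (each of these cuts gives a triangle);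
the new facet gets `r` further vertices by `r` further cuts, each of them gives a triangle; the first facet is left.
`raise`: the cut goes through two neighbours of the vertex, so only the second facet gets a further vertex.
`two`: two further triangles.
`Der.ra`: if a facet of size `d ≥ 4` of `Z` is replaced by a facet of size `d + 1` and a triangle there is a construction again.
-/

set_option autoImplicit false

namespace Pool.Agent.P3G

open Pool.Agent.P3F

/-- Three facets of sizes `u`, `v`, `w` at a vertex of degree three; `M` are the sizes of the other facets. -/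
def St (u v w : ℕ) (M : Multiset ℕ) : Prop :=
  ∃ (J : Finset ℕ) (sz : ℕ → ℕ) (Q : Finset (Finset ℕ)) (i j k : ℕ),
    i ≠ j ∧ i ≠ k ∧ j ≠ k ∧ i ∉ J ∧ j ∉ J ∧ k ∉ J ∧
    Chart (insert i (insert j (insert k J))) sz Q ∧ ({i, j, k} : Finset ℕ) ∈ Q ∧
    sz i = u ∧ sz j = v ∧ sz k = w ∧ J.val.map sz = M

/-- There is a 3-polytope with facets of the sizes `Y`. -/
def Rz (Y : Multiset ℕ) : Prop :=
  ∃ (I : Finset ℕ) (sz : ℕ → ℕ) (Q : Finset (Finset ℕ)), Chart I sz Q ∧ Q.Nonempty ∧
    I.val.map sz = Y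

theorem Rz_census {p : ℕ →₀ ℕ} (h : Rz (Finsupp.toMultiset p)) : IsCensus p := by
  obtain ⟨I, sz, Q, h1, -, h3⟩ := h
  exact census_of_chart h1 h3

theorem Rz_two {Y : Multiset ℕ} (h : Rz Y) (h3 : ∀ k ∈ Y, 3 ≤ k) : Rz (3 ::ₘ 3 ::ₘ Y) := by
  obtain ⟨I, sz, Q, h1, h2, h4⟩ := h
  obtain ⟨J, sz', Q', hd, hJ, hc, hne, hJ3, hI⟩ := add_two h1 h2 (fun i hi => h3 _ (by
    rw [← h4]; exact Multiset.mem_map_of_mem sz hi))
  refine ⟨I ∪ J, sz', Q', hc, hne, ?_⟩
  rw [suf_union_map hd, suf_const_map hJ3, hJ]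
  have : I.val.map sz' = I.val.map sz := Multiset.map_congr rfl fun x hx => hI x hx
  rw [this, h4]
  have e : Multiset.replicate 2 3 = (3 ::ₘ 3 ::ₘ 0 : Multiset ℕ) := rfl
  rw [e]
  simp only [← Multiset.singleton_add, add_zero]
  abel

theorem St_Rz {u v w : ℕ} {M : Multiset ℕ} (h : St u v w M) : Rz (u ::ₘ v ::ₘ w ::ₘ M) := by
  obtain ⟨J, sz, Q, i, j, k, hij, hik, hjk, hi, hj, hk, hC, hQ, hu, hv, hw, hM⟩ := h
  refine ⟨_, sz, Q, hC, ⟨_, hQ⟩, ?_⟩
  rw [Finset.insert_val_of_notMem, Finset.insert_val_of_notMem, Finset.insert_val_of_notMem hk,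
    Multiset.map_cons, Multiset.map_cons, Multiset.map_cons, hu, hv, hw, hM]
  · rw [Finset.mem_insert]
    rintro (h | h)
    · exact hjk h
    · exact hj h
  · rw [Finset.mem_insert, Finset.mem_insert]
    rintro (h | h | h)
    · exact hij h
    · exact hik h
    · exact hi h

theorem St_swap {u v w : ℕ} {M : Multiset ℕ} (h : St u v w M) : St v u w M := by
  obtain ⟨J, sz, Q, i, j, k, hij, hik, hjk, hi, hj, hk, hC, hQ, hu, hv, hw, hM⟩ := h
  refine ⟨J, sz, Q, j, i, k, hij.symm, hjk, hik, hj, hi, hk, ?_, ?_, hv, hu, hw, hM⟩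
  · rw [Finset.insert_comm]; exact hC
  · rw [Finset.insert_comm]; exact hQ

theorem St_rot {u v w : ℕ} {M : Multiset ℕ} (h : St u v w M) : St v w u M := by
  obtain ⟨J, sz, Q, i, j, k, hij, hik, hjk, hi, hj, hk, hC, hQ, hu, hv, hw, hM⟩ := h
  refine ⟨J, sz, Q, j, k, i, hjk, hij.symm, hik.symm, hj, hk, hi, ?_, ?_, hv, hw, hu, hM⟩
  · have e : insert j (insert k (insert i J)) = insert i (insert j (insert k J)) := by
      ext x
      simp only [Finset.mem_insert]
      tauto
    rw [e]; exact hC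
  · have e : ({j, k, i} : Finset ℕ) = {i, j, k} := by
      ext x
      simp only [Finset.mem_insert, Finset.mem_singleton]
      tauto
    rw [e]; exact hQ

theorem map_J {J R : Finset ℕ} {sz sz2 : ℕ → ℕ} {i r u : ℕ} (hiJ : i ∉ J) (hiR : i ∉ R)
    (hd : Disjoint J R) (hR : ∀ l ∈ R, sz2 l = 3) (hc : R.card = r) (hJ : ∀ l ∈ J, sz2 l = sz l)
    (hi : sz2 i = u) :
    (insert i (J ∪ R)).val.map sz2 = u ::ₘ (Multiset.replicate r 3 + J.val.map sz) := by
  rw [Finset.insert_val_of_notMem (by rw [Finset.mem_union]; exact fun h => h.elim hiJ hiR),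
    Multiset.map_cons, hi, suf_union_map hd, suf_const_map hR, hc, add_comm]
  congr 2
  exact Multiset.map_congr rfl fun x hx => hJ x hx

/-- An optional cut of a vertex of degree three. -/
theorem opt (s : Bool) {I : Finset ℕ} {sz : ℕ → ℕ} {Q : Finset (Finset ℕ)} (h : Chart I sz Q)
    {i j k : ℕ} (hij : i ≠ j) (hik : i ≠ k) (hjk : j ≠ k) (hc : ({i, j, k} : Finset ℕ) ∈ Q) :
    ∃ (J : Finset ℕ) (sz' : ℕ → ℕ) (Q' : Finset (Finset ℕ)), Disjoint I J ∧ J.card = s.toNat ∧
      Chart (I ∪ J) sz' Q' ∧ (∀ l ∈ J, sz' l = 3) ∧ sz' i = sz i + s.toNat ∧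
      sz' j = sz j + s.toNat ∧ sz' k = sz k + s.toNat ∧
      (∀ l ∈ I, l ≠ i → l ≠ j → l ≠ k → sz' l = sz l) ∧
      (∃ x, x ≠ i ∧ x ≠ k ∧ ({k, i, x} : Finset ℕ) ∈ Q') ∧ ∀ c ∈ Q, c ≠ {i, j, k} → c ∈ Q' := by
  cases s
  · refine ⟨∅, sz, Q, Finset.disjoint_empty_right I, Finset.card_empty, ?_, ?_, rfl, rfl, rfl,
      fun l _ _ _ _ => rfl, ⟨j, hij.symm, hjk, ?_⟩, fun c hc _ => hc⟩
    · rw [Finset.union_empty]; exact h
    · intro l hl
      exact absurd hl (Finset.notMem_empty l)
    · have e : ({k, i, j} : Finset ℕ) = {i, j, k} := by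
        ext x
        simp only [Finset.mem_insert, Finset.mem_singleton]
        tauto
      rw [e]; exact hc
  · obtain ⟨t, sz1, Q1, ht, c1, s1, s2, s3, s4, s5, q1, q2, q3, q4⟩ := trunc h hij hik hjk hc
    have hsub : ({i, j, k} : Finset ℕ) ⊆ I := by
      obtain ⟨N, φ, _, _, _, _, _, _, h7⟩ := h
      exact (h7 _ hc).1
    refine ⟨{t}, sz1, Q1, Finset.disjoint_singleton_right.2 ht, Finset.card_singleton t, ?_, ?_,
      s2, s3, s4, s5, ⟨t, ?_, ?_, ?_⟩, q4⟩
    · have e : I ∪ {t} = insert t I := by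
        ext x
        simp only [Finset.mem_union, Finset.mem_insert, Finset.mem_singleton]
        tauto
      rw [e]; exact c1
    · intro l hl
      rw [Finset.mem_singleton] at hl
      rw [hl]; exact s1
    · rintro rfl
      exact ht (hsub (by simp))
    · rintro rfl
      exact ht (hsub (by simp))
    · have e : ({k, i, t} : Finset ℕ) = {i, k, t} := by
        ext x
        simp only [Finset.mem_insert, Finset.mem_singleton]
        tauto
      rw [e]; exact q3

theorem St_trunc {u v w : ℕ} {M : Multiset ℕ} (h : St u v w M) (r : ℕ) (s1 s2 : Bool) :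
    St (v + 1 + s1.toNat) (w + 1 + s2.toNat) (3 + r + s1.toNat + s2.toNat)
      ((u + 1 + s1.toNat + s2.toNat) ::ₘ (Multiset.replicate (r + s1.toNat + s2.toNat) 3 + M)) := by
  obtain ⟨J, sz, Q, i, j, k, hij, hik, hjk, hi, hj, hk, hC, hQ, hu, hv, hw, hM⟩ := h
  obtain ⟨t, sz1, Q1, ht, c1, a1, a2, a3, a4, a5, q1, q2, q3, -⟩ := trunc hC hij hik hjk hQ
  simp only [Finset.mem_insert, not_or] at ht
  obtain ⟨hti, htj, htk, htJ⟩ := ht
  -- the first optional cut, at `{i, j, t}`
  obtain ⟨R1, sz2, Q2, d1, d2, d3, d4, d5, d6, d7, d8, -, d10⟩ :=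
    opt s1 c1 hij (Ne.symm hti) (Ne.symm htj) q1
  have q3' : ({i, k, t} : Finset ℕ) ∈ Q2 := by
    refine d10 _ q3 ?_
    intro he
    have h1 : k ∈ ({i, j, t} : Finset ℕ) := by rw [← he]; simp
    simp only [Finset.mem_insert, Finset.mem_singleton] at h1
    rcases h1 with h1 | h1 | h1
    · exact hik h1.symm
    · exact hjk h1.symm
    · exact htk h1.symm
  have q2' : ({j, k, t} : Finset ℕ) ∈ Q2 := by
    refine d10 _ q2 ?_
    intro he
    have h1 : k ∈ ({i, j, t} : Finset ℕ) := by rw [← he]; simp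
    simp only [Finset.mem_insert, Finset.mem_singleton] at h1
    rcases h1 with h1 | h1 | h1
    · exact hik h1.symm
    · exact hjk h1.symm
    · exact htk h1.symm
  -- the second optional cut, at `{i, k, t}`
  obtain ⟨R2, sz3, Q3, f1, f2, f3, f4, f5, f6, f7, f8, ⟨x, x1, x2, x3⟩, f10⟩ :=
    opt s2 d3 hik (Ne.symm hti) (Ne.symm htk) q3'
  have q2'' : ({j, k, t} : Finset ℕ) ∈ Q3 := by
    refine f10 _ q2' ?_
    intro he
    have h1 : j ∈ ({i, k, t} : Finset ℕ) := by rw [← he]; simp
    simp only [Finset.mem_insert, Finset.mem_singleton] at h1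
    rcases h1 with h1 | h1 | h1
    · exact hij h1.symm
    · exact hjk h1
    · exact htj h1.symm
  -- raising `t`
  obtain ⟨R, sz4, Q4, g1, g2, g3, g4, g5, g6, -, g8⟩ := raise_n r f3 hti (Ne.symm x2) (Ne.symm x1) x3
  have m1 : t ∈ insert t (insert i (insert j (insert k J))) := by simp
  have mi : i ∈ insert t (insert i (insert j (insert k J))) := by simp
  have mj : j ∈ insert t (insert i (insert j (insert k J))) := by simp
  have mk : k ∈ insert t (insert i (insert j (insert k J))) := by simp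
  have mJ : ∀ l ∈ J, l ∈ insert t (insert i (insert j (insert k J))) := by
    intro l hl
    simp [hl]
  have w2 : ∀ l ∈ insert t (insert i (insert j (insert k J))),
      l ∈ insert t (insert i (insert j (insert k J))) ∪ R1 := fun l hl => Finset.mem_union_left _ hl
  have w3 : ∀ l ∈ insert t (insert i (insert j (insert k J))),
      l ∈ insert t (insert i (insert j (insert k J))) ∪ R1 ∪ R2 :=
    fun l hl => Finset.mem_union_left _ (w2 l hl)
  have n1 : ∀ l ∈ insert t (insert i (insert j (insert k J))), l ∉ R1 :=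
    fun l hl => Finset.disjoint_left.1 d1 hl
  have n2 : ∀ l ∈ insert t (insert i (insert j (insert k J))), l ∉ R2 :=
    fun l hl => Finset.disjoint_left.1 f1 (w2 l hl)
  have n3 : ∀ l ∈ insert t (insert i (insert j (insert k J))), l ∉ R :=
    fun l hl => Finset.disjoint_left.1 g1 (w3 l hl)
  have hd12 : Disjoint R1 R2 := by
    rw [Finset.disjoint_left]
    intro l h1 h2
    exact Finset.disjoint_left.1 f1 (Finset.mem_union_right _ h1) h2
  have hd3 : Disjoint (R1 ∪ R2) R := by
    rw [Finset.disjoint_left]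
    intro l h1 h2
    refine Finset.disjoint_left.1 g1 ?_ h2
    rcases Finset.mem_union.1 h1 with h1 | h1
    · exact Finset.mem_union_left _ (Finset.mem_union_right _ h1)
    · exact Finset.mem_union_right _ h1
  have hti' : ∀ l ∈ R1 ∪ R2, l ≠ t ∧ l ≠ i ∧ l ≠ j ∧ l ≠ k := by
    intro l hl
    rcases Finset.mem_union.1 hl with h1 | h1
    · exact ⟨fun e => n1 t m1 (e ▸ h1), fun e => n1 i mi (e ▸ h1), fun e => n1 j mj (e ▸ h1),
        fun e => n1 k mk (e ▸ h1)⟩
    · exact ⟨fun e => n2 t m1 (e ▸ h1), fun e => n2 i mi (e ▸ h1), fun e => n2 j mj (e ▸ h1),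
        fun e => n2 k mk (e ▸ h1)⟩
  refine ⟨insert i (J ∪ (R1 ∪ R2 ∪ R)), sz4, Q4, j, k, t, hjk, Ne.symm htj, Ne.symm htk, ?_, ?_, ?_,
    ?_, ?_, ?_, ?_, ?_, ?_⟩
  · simp only [Finset.mem_insert, Finset.mem_union, not_or]
    exact ⟨hij.symm, hj, ⟨n1 j mj, n2 j mj⟩, n3 j mj⟩
  · simp only [Finset.mem_insert, Finset.mem_union, not_or]
    exact ⟨hik.symm, hk, ⟨n1 k mk, n2 k mk⟩, n3 k mk⟩
  · simp only [Finset.mem_insert, Finset.mem_union, not_or]
    exact ⟨hti, htJ, ⟨n1 t m1, n2 t m1⟩, n3 t m1⟩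
  · have e : insert j (insert k (insert t (insert i (J ∪ (R1 ∪ R2 ∪ R))))) =
        insert t (insert i (insert j (insert k J))) ∪ R1 ∪ R2 ∪ R := by
      ext y
      simp only [Finset.mem_insert, Finset.mem_union]
      tauto
    rw [e]; exact g3
  · refine g8 _ q2'' ?_
    intro hsub
    have h1 : i ∈ ({j, k, t} : Finset ℕ) := hsub (by simp)
    simp only [Finset.mem_insert, Finset.mem_singleton] at h1
    rcases h1 with h1 | h1 | h1
    · exact hij h1
    · exact hik h1
    · exact hti h1.symm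
  · rw [g6 j (w3 j mj) (Ne.symm htj), f8 j (w2 j mj) hij.symm hjk (Ne.symm htj), d6, a3, hv]
  · rw [g6 k (w3 k mk) (Ne.symm htk), f6, d8 k mk hik.symm hjk.symm (Ne.symm htk), a4, hw]
  · rw [g5, f7, d7, a1]
    omega
  · rw [← hM]
    have hR : ∀ l ∈ R1 ∪ R2 ∪ R, sz4 l = 3 := by
      intro l hl
      rcases Finset.mem_union.1 hl with h1 | h1
      · obtain ⟨k1, k2, k3, k4⟩ := hti' l h1
        rcases Finset.mem_union.1 h1 with h2 | h2
        · rw [g6 l (Finset.mem_union_left _ (Finset.mem_union_right _ h2)) k1,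
            f8 l (Finset.mem_union_right _ h2) k2 k4 k1, d4 l h2]
        · rw [g6 l (Finset.mem_union_right _ h2) k1, f4 l h2]
      · exact g4 l h1
    have hcard : (R1 ∪ R2 ∪ R).card = r + s1.toNat + s2.toNat := by
      rw [Finset.card_union_of_disjoint hd3, Finset.card_union_of_disjoint hd12, d2, f2, g2]
      omega
    refine map_J hi ?_ ?_ hR hcard ?_ ?_
    · simp only [Finset.mem_union, not_or]
      exact ⟨⟨n1 i mi, n2 i mi⟩, n3 i mi⟩
    · rw [Finset.disjoint_left]
      intro l hl h2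
      simp only [Finset.mem_union] at h2
      rcases h2 with (h2 | h2) | h2
      · exact n1 l (mJ l hl) h2
      · exact n2 l (mJ l hl) h2
      · exact n3 l (mJ l hl) h2
    · intro l hl
      have hli : l ≠ i := fun e => hi (e ▸ hl)
      have hlj : l ≠ j := fun e => hj (e ▸ hl)
      have hlk : l ≠ k := fun e => hk (e ▸ hl)
      have hlt : l ≠ t := fun e => htJ (e ▸ hl)
      rw [g6 l (w3 l (mJ l hl)) hlt, f8 l (w2 l (mJ l hl)) hli hlk hlt,
        d8 l (mJ l hl) hli hlj hlt, a5 l (by simp [hl]) hli hlj hlk]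
    · rw [g6 i (w3 i mi) (Ne.symm hti), f5, d5, a2, hu]

theorem St_raise {u v w : ℕ} {M : Multiset ℕ} (h : St u v w M) (r : ℕ) :
    St (v + 1) w (3 + r) (u ::ₘ (Multiset.replicate r 3 + M)) := by
  obtain ⟨J, sz, Q, i, j, k, hij, hik, hjk, hi, hj, hk, hC, hQ, hu, hv, hw, hM⟩ := h
  have hQ' : ({j, i, k} : Finset ℕ) ∈ Q := by rw [Finset.insert_comm]; exact hQ
  obtain ⟨t, sz1, Q1, ht, c1, s1, s2, s3, q1, q2, -⟩ := raise hC hij.symm hjk hik hQ'
  simp only [Finset.mem_insert, not_or] at ht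
  obtain ⟨hti, htj, htk, htJ⟩ := ht
  have q1' : ({t, j, i} : Finset ℕ) ∈ Q1 := by
    have e : ({t, j, i} : Finset ℕ) = {j, i, t} := by
      ext x
      simp only [Finset.mem_insert, Finset.mem_singleton]
      tauto
    rw [e]; exact q1
  obtain ⟨R, sz2, Q2, d1, d2, d3, d4, d5, d6, -, d8⟩ := raise_n r c1 htj hti hij.symm q1'
  simp only [Finset.disjoint_insert_left] at d1
  obtain ⟨htR, hiR, hjR, hkR, hJR⟩ := d1
  refine ⟨insert i (J ∪ R), sz2, Q2, j, k, t, hjk, Ne.symm htj, Ne.symm htk, ?_, ?_, ?_, ?_, ?_, ?_, ?_, ?_, ?_⟩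
  · simp only [Finset.mem_insert, Finset.mem_union, not_or]
    exact ⟨hij.symm, hj, hjR⟩
  · simp only [Finset.mem_insert, Finset.mem_union, not_or]
    exact ⟨hik.symm, hk, hkR⟩
  · simp only [Finset.mem_insert, Finset.mem_union, not_or]
    exact ⟨hti, htJ, htR⟩
  · have e : insert j (insert k (insert t (insert i (J ∪ R)))) =
        insert t (insert i (insert j (insert k J))) ∪ R := by
      ext x
      simp only [Finset.mem_insert, Finset.mem_union]
      tauto
    rw [e]; exact d3
  · refine d8 _ q2 ?_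
    intro hsub
    have h1 : i ∈ ({j, k, t} : Finset ℕ) := hsub (by simp)
    simp only [Finset.mem_insert, Finset.mem_singleton] at h1
    rcases h1 with h1 | h1 | h1
    · exact hij h1
    · exact hik h1
    · exact hti h1.symm
  · rw [d6 j (by simp) (Ne.symm htj), s2, hv]
  · rw [d6 k (by simp) (Ne.symm htk), s3 k (by simp) hjk.symm, hw]
  · rw [d5, s1]
  · rw [← hM]
    refine map_J hi hiR hJR d4 d2 ?_ ?_
    · intro l hl
      have hlj : l ≠ j := fun e => hj (e ▸ hl)
      have hlt : l ≠ t := fun e => htJ (e ▸ hl)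
      rw [d6 l (by simp [hl]) hlt, s3 l (by simp [hl]) hlj]
    · rw [d6 i (by simp) (Ne.symm hti), s3 i (by simp) hij, hu]

/-- The game. -/
inductive Der : ℕ → ℕ → ℕ → Multiset ℕ → Prop
  | done : Der 0 0 0 0
  | two {a b c : ℕ} {Z : Multiset ℕ} : Der a b c Z → Der a b c (3 ::ₘ 3 ::ₘ Z)
  | trunc {b c n : ℕ} {Z : Multiset ℕ} (r : ℕ) (s1 s2 : Bool) : Der b c n Z →
      Der (1 + s1.toNat + s2.toNat) (b + 1 + s1.toNat) (c + 1 + s2.toNat)
        ((n + 3 + r + s1.toNat + s2.toNat) ::ₘ
          (Multiset.replicate (r + s1.toNat + s2.toNat) 3 + Z))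
  | raise {b c n : ℕ} {Z : Multiset ℕ} (r : ℕ) : Der b c n Z →
      Der 0 (b + 1) c ((n + 3 + r) ::ₘ (Multiset.replicate r 3 + Z))
  | swap {a b c : ℕ} {Z : Multiset ℕ} : Der a b c Z → Der b a c Z
  | rot {a b c : ℕ} {Z : Multiset ℕ} : Der a b c Z → Der b c a Z

theorem Der.ge {a b c : ℕ} {Z : Multiset ℕ} (h : Der a b c Z) : ∀ k ∈ Z, 3 ≤ k := by
  induction h with
  | done => intro k hk; exact absurd hk (Multiset.notMem_zero k)
  | two _ ih =>
    intro k hk
    rw [Multiset.mem_cons, Multiset.mem_cons] at hk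
    rcases hk with h | h | h
    · omega
    · omega
    · exact ih k h
  | trunc r s1 s2 _ ih =>
    intro k hk
    rw [Multiset.mem_cons, Multiset.mem_add] at hk
    rcases hk with h | h | h
    · omega
    · rw [Multiset.eq_of_mem_replicate h]
    · exact ih k h
  | raise r _ ih =>
    intro k hk
    rw [Multiset.mem_cons, Multiset.mem_add] at hk
    rcases hk with h | h | h
    · omega
    · rw [Multiset.eq_of_mem_replicate h]
    · exact ih k h
  | swap _ ih => exact ih
  | rot _ ih => exact ih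

theorem Der.sound {a b c : ℕ} {Z : Multiset ℕ} (h : Der a b c Z) : ∀ (u v w : ℕ) (M : Multiset ℕ),
    St u v w M → 3 ≤ u → 3 ≤ v → 3 ≤ w → (∀ k ∈ M, 3 ≤ k) →
    Rz ((u + a) ::ₘ (v + b) ::ₘ (w + c) ::ₘ (Z + M)) := by
  induction h with
  | done =>
    intro u v w M hS _ _ _ _
    simpa using St_Rz hS
  | @two a b c Z h ih =>
    intro u v w M hS hu hv hw hM
    have h1 := Rz_two (ih u v w M hS hu hv hw hM) (by
      intro k hk
      simp only [Multiset.mem_cons, Multiset.mem_add] at hk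
      rcases hk with h | h | h | h | h
      · omega
      · omega
      · omega
      · exact Der.ge (by assumption) k h
      · exact hM k h)
    have e : (u + a) ::ₘ (v + b) ::ₘ (w + c) ::ₘ (3 ::ₘ 3 ::ₘ Z + M) =
        3 ::ₘ 3 ::ₘ (u + a) ::ₘ (v + b) ::ₘ (w + c) ::ₘ (Z + M) := by
      simp only [← Multiset.singleton_add]
      abel
    rw [e]; exact h1
  | @trunc b c n Z r s1 s2 h ih =>
    intro u v w M hS hu hv hw hM
    have h1 := ih _ _ _ _ (St_trunc hS r s1 s2) (by omega) (by omega) (by omega) (by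
      intro k hk
      simp only [Multiset.mem_cons, Multiset.mem_add] at hk
      rcases hk with h | h | h
      · omega
      · rw [Multiset.eq_of_mem_replicate h]
      · exact hM k h)
    have e : (u + (1 + s1.toNat + s2.toNat)) ::ₘ (v + (b + 1 + s1.toNat)) ::ₘ
        (w + (c + 1 + s2.toNat)) ::ₘ
        ((n + 3 + r + s1.toNat + s2.toNat) ::ₘ
          (Multiset.replicate (r + s1.toNat + s2.toNat) 3 + Z) + M) =
        (v + 1 + s1.toNat + b) ::ₘ (w + 1 + s2.toNat + c) ::ₘ
          (3 + r + s1.toNat + s2.toNat + n) ::ₘ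
          (Z + (u + 1 + s1.toNat + s2.toNat) ::ₘ
            (Multiset.replicate (r + s1.toNat + s2.toNat) 3 + M)) := by
      have e0 : u + (1 + s1.toNat + s2.toNat) = u + 1 + s1.toNat + s2.toNat := by omega
      have e1 : v + (b + 1 + s1.toNat) = v + 1 + s1.toNat + b := by omega
      have e2 : w + (c + 1 + s2.toNat) = w + 1 + s2.toNat + c := by omega
      have e3 : n + 3 + r + s1.toNat + s2.toNat = 3 + r + s1.toNat + s2.toNat + n := by omega
      rw [e0, e1, e2, e3]
      simp only [← Multiset.singleton_add]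
      abel
    rw [e]; exact h1
  | @raise b c n Z r h ih =>
    intro u v w M hS hu hv hw hM
    have h1 := ih _ _ _ _ (St_raise hS r) (by omega) (by omega) (by omega) (by
      intro k hk
      simp only [Multiset.mem_cons, Multiset.mem_add] at hk
      rcases hk with h | h | h
      · omega
      · rw [Multiset.eq_of_mem_replicate h]
      · exact hM k h)
    have e : (u + 0) ::ₘ (v + (b + 1)) ::ₘ (w + c) ::ₘ
        ((n + 3 + r) ::ₘ (Multiset.replicate r 3 + Z) + M) =
        (v + 1 + b) ::ₘ (w + c) ::ₘ (3 + r + n) ::ₘ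
          (Z + u ::ₘ (Multiset.replicate r 3 + M)) := by
      have e1 : v + (b + 1) = v + 1 + b := by omega
      have e3 : n + 3 + r = 3 + r + n := by omega
      rw [e1, e3, add_zero]
      simp only [← Multiset.singleton_add]
      abel
    rw [e]; exact h1
  | @swap a b c Z h ih =>
    intro u v w M hS hu hv hw hM
    have h1 := ih _ _ _ _ (St_swap hS) hv hu hw hM
    rw [Multiset.cons_swap]; exact h1
  | @rot a b c Z h ih =>
    intro u v w M hS hu hv hw hM
    have h1 := ih _ _ _ _ (St_rot (St_rot hS)) hw hu hv hM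
    have e : (u + b) ::ₘ (v + c) ::ₘ (w + a) ::ₘ (Z + M) =
        (w + a) ::ₘ (u + b) ::ₘ (v + c) ::ₘ (Z + M) := by
      simp only [← Multiset.singleton_add]
      abel
    rw [e]; exact h1

/-- One facet more vertex and one more triangle. -/
theorem Der.ra {a b c : ℕ} {Z : Multiset ℕ} (h : Der a b c Z) : ∀ (d : ℕ) (Z' : Multiset ℕ),
    Z = d ::ₘ Z' → 4 ≤ d → Der a b c ((d + 1) ::ₘ 3 ::ₘ Z') := by
  induction h with
  | done =>
    intro d Z' h
    exact absurd h.symm (Multiset.cons_ne_zero)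
  | @two a b c Z h ih =>
    intro d Z' hZ hd
    have h1 : d ∈ Z := by
      have h2 : d ∈ 3 ::ₘ 3 ::ₘ Z := by rw [hZ]; exact Multiset.mem_cons_self d Z'
      rw [Multiset.mem_cons, Multiset.mem_cons] at h2
      rcases h2 with h2 | h2 | h2
      · omega
      · omega
      · exact h2
    obtain ⟨Z1, rfl⟩ := Multiset.exists_cons_of_mem h1
    have h3 : Z' = 3 ::ₘ 3 ::ₘ Z1 := by
      have h4 : d ::ₘ Z' = d ::ₘ 3 ::ₘ 3 ::ₘ Z1 := by
        rw [← hZ]
        simp only [← Multiset.singleton_add]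
        abel
      exact (Multiset.cons_inj_right d).1 h4
    rw [h3]
    have h5 := (ih d Z1 rfl hd).two
    have e : (d + 1) ::ₘ 3 ::ₘ 3 ::ₘ 3 ::ₘ Z1 = 3 ::ₘ 3 ::ₘ (d + 1) ::ₘ 3 ::ₘ Z1 := by
      simp only [← Multiset.singleton_add]
      abel
    rw [e]; exact h5
  | @trunc b c n Z r s1 s2 h ih =>
    intro d Z' hZ hd
    by_cases hdn : d = n + 3 + r + s1.toNat + s2.toNat
    · have h3 : Z' = Multiset.replicate (r + s1.toNat + s2.toNat) 3 + Z := by
        rw [hdn] at hZ
        exact ((Multiset.cons_inj_right _).1 hZ).symm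
      have h5 := Der.trunc (r + 1) s1 s2 h
      rw [h3, hdn]
      have e : (n + 3 + r + s1.toNat + s2.toNat + 1) ::ₘ 3 ::ₘ
          (Multiset.replicate (r + s1.toNat + s2.toNat) 3 + Z) =
          (n + 3 + (r + 1) + s1.toNat + s2.toNat) ::ₘ
            (Multiset.replicate (r + 1 + s1.toNat + s2.toNat) 3 + Z) := by
        rw [show r + 1 + s1.toNat + s2.toNat = r + s1.toNat + s2.toNat + 1 by omega,
          Multiset.replicate_succ,
          show n + 3 + (r + 1) + s1.toNat + s2.toNat = n + 3 + r + s1.toNat + s2.toNat + 1 by omega]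
        simp only [← Multiset.singleton_add]
        abel
      rw [e]; exact h5
    · have h1 : d ∈ Z := by
        have h2 : d ∈ (n + 3 + r + s1.toNat + s2.toNat) ::ₘ
            (Multiset.replicate (r + s1.toNat + s2.toNat) 3 + Z) := by
          rw [hZ]; exact Multiset.mem_cons_self d Z'
        rw [Multiset.mem_cons, Multiset.mem_add] at h2
        rcases h2 with h2 | h2 | h2
        · exact absurd h2 hdn
        · have := Multiset.eq_of_mem_replicate h2
          omega
        · exact h2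
      obtain ⟨Z1, rfl⟩ := Multiset.exists_cons_of_mem h1
      have h3 : Z' = (n + 3 + r + s1.toNat + s2.toNat) ::ₘ
          (Multiset.replicate (r + s1.toNat + s2.toNat) 3 + Z1) := by
        have h4 : d ::ₘ Z' = d ::ₘ (n + 3 + r + s1.toNat + s2.toNat) ::ₘ
            (Multiset.replicate (r + s1.toNat + s2.toNat) 3 + Z1) := by
          rw [← hZ]
          simp only [← Multiset.singleton_add]
          abel
        exact (Multiset.cons_inj_right d).1 h4
      rw [h3]
      have h5 := Der.trunc r s1 s2 (ih d Z1 rfl hd)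
      have e : (d + 1) ::ₘ 3 ::ₘ (n + 3 + r + s1.toNat + s2.toNat) ::ₘ
          (Multiset.replicate (r + s1.toNat + s2.toNat) 3 + Z1) =
          (n + 3 + r + s1.toNat + s2.toNat) ::ₘ
            (Multiset.replicate (r + s1.toNat + s2.toNat) 3 + (d + 1) ::ₘ 3 ::ₘ Z1) := by
        simp only [← Multiset.singleton_add]
        abel
      rw [e]; exact h5
  | @raise b c n Z r h ih =>
    intro d Z' hZ hd
    by_cases hdn : d = n + 3 + r
    · have h3 : Z' = Multiset.replicate r 3 + Z := by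
        rw [hdn] at hZ
        exact ((Multiset.cons_inj_right _).1 hZ).symm
      have h5 := Der.raise (r + 1) h
      rw [h3, hdn]
      have e : (n + 3 + r + 1) ::ₘ 3 ::ₘ (Multiset.replicate r 3 + Z) =
          (n + 3 + (r + 1)) ::ₘ (Multiset.replicate (r + 1) 3 + Z) := by
        rw [Multiset.replicate_succ]
        simp only [← Multiset.singleton_add]
        abel_nf
      rw [e]; exact h5
    · have h1 : d ∈ Z := by
        have h2 : d ∈ (n + 3 + r) ::ₘ (Multiset.replicate r 3 + Z) := by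
          rw [hZ]; exact Multiset.mem_cons_self d Z'
        rw [Multiset.mem_cons, Multiset.mem_add] at h2
        rcases h2 with h2 | h2 | h2
        · exact absurd h2 hdn
        · have := Multiset.eq_of_mem_replicate h2
          omega
        · exact h2
      obtain ⟨Z1, rfl⟩ := Multiset.exists_cons_of_mem h1
      have h3 : Z' = (n + 3 + r) ::ₘ (Multiset.replicate r 3 + Z1) := by
        have h4 : d ::ₘ Z' = d ::ₘ (n + 3 + r) ::ₘ (Multiset.replicate r 3 + Z1) := by
          rw [← hZ]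
          simp only [← Multiset.singleton_add]
          abel
        exact (Multiset.cons_inj_right d).1 h4
      rw [h3]
      have h5 := Der.raise r (ih d Z1 rfl hd)
      have e : (d + 1) ::ₘ 3 ::ₘ (n + 3 + r) ::ₘ (Multiset.replicate r 3 + Z1) =
          (n + 3 + r) ::ₘ (Multiset.replicate r 3 + (d + 1) ::ₘ 3 ::ₘ Z1) := by
        simp only [← Multiset.singleton_add]
        abel
      rw [e]; exact h5
  | @swap a b c Z h ih => exact fun d Z' hZ hd => (ih d Z' hZ hd).swap
  | @rot a b c Z h ih => exact fun d Z' hZ hd => (ih d Z' hZ hd).rot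

/-- The start: a tetrahedron, three facets of which get further vertices. -/
def Tot (Y : Multiset ℕ) : Prop :=
  ∃ (a b c x y z : ℕ) (Z : Multiset ℕ), Der a b c Z ∧
    Y = 3 ::ₘ (a + 3 + x) ::ₘ (b + 3 + y) ::ₘ (c + 3 + z) ::ₘ
      (Multiset.replicate (x + y + z) 3 + Z)

theorem Tot.two {Y : Multiset ℕ} (h : Tot Y) : Tot (3 ::ₘ 3 ::ₘ Y) := by
  obtain ⟨a, b, c, x, y, z, Z, h1, rfl⟩ := h
  refine ⟨a, b, c, x, y, z, _, h1.two, ?_⟩
  simp only [← Multiset.singleton_add]
  abel

theorem Tot.ra {Y : Multiset ℕ} (h : Tot Y) {d : ℕ} {Y' : Multiset ℕ} (hY : Y = d ::ₘ Y')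
    (hd : 4 ≤ d) : Tot ((d + 1) ::ₘ 3 ::ₘ Y') := by
  obtain ⟨a, b, c, x, y, z, Z, h1, rfl⟩ := h
  have h2 : d ∈ 3 ::ₘ (a + 3 + x) ::ₘ (b + 3 + y) ::ₘ (c + 3 + z) ::ₘ
      (Multiset.replicate (x + y + z) 3 + Z) := by rw [hY]; exact Multiset.mem_cons_self d Y'
  simp only [Multiset.mem_cons, Multiset.mem_add] at h2
  rcases h2 with h2 | h2 | h2 | h2 | h2 | h2
  · omega
  · refine ⟨a, b, c, x + 1, y, z, Z, h1, ?_⟩
    subst h2
    have h3 : Y' = 3 ::ₘ (b + 3 + y) ::ₘ (c + 3 + z) ::ₘ
        (Multiset.replicate (x + y + z) 3 + Z) := by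
      apply (Multiset.cons_inj_right (a + 3 + x)).1
      rw [← hY]
      simp only [← Multiset.singleton_add]
      abel
    rw [h3, show x + 1 + y + z = x + y + z + 1 by omega, Multiset.replicate_succ,
      show a + 3 + (x + 1) = a + 3 + x + 1 by omega]
    simp only [← Multiset.singleton_add]
    abel
  · refine ⟨a, b, c, x, y + 1, z, Z, h1, ?_⟩
    subst h2
    have h3 : Y' = 3 ::ₘ (a + 3 + x) ::ₘ (c + 3 + z) ::ₘ
        (Multiset.replicate (x + y + z) 3 + Z) := by
      apply (Multiset.cons_inj_right (b + 3 + y)).1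
      rw [← hY]
      simp only [← Multiset.singleton_add]
      abel
    rw [h3, show x + (y + 1) + z = x + y + z + 1 by omega, Multiset.replicate_succ,
      show b + 3 + (y + 1) = b + 3 + y + 1 by omega]
    simp only [← Multiset.singleton_add]
    abel
  · refine ⟨a, b, c, x, y, z + 1, Z, h1, ?_⟩
    subst h2
    have h3 : Y' = 3 ::ₘ (a + 3 + x) ::ₘ (b + 3 + y) ::ₘ
        (Multiset.replicate (x + y + z) 3 + Z) := by
      apply (Multiset.cons_inj_right (c + 3 + z)).1
      rw [← hY]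
      simp only [← Multiset.singleton_add]
      abel
    rw [h3, show x + y + (z + 1) = x + y + z + 1 by omega, Multiset.replicate_succ,
      show c + 3 + (z + 1) = c + 3 + z + 1 by omega]
    simp only [← Multiset.singleton_add]
    abel
  · have := Multiset.eq_of_mem_replicate h2
    omega
  · obtain ⟨Z1, rfl⟩ := Multiset.exists_cons_of_mem h2
    refine ⟨a, b, c, x, y, z, _, h1.ra d Z1 rfl hd, ?_⟩
    have h3 : Y' = 3 ::ₘ (a + 3 + x) ::ₘ (b + 3 + y) ::ₘ (c + 3 + z) ::ₘ
        (Multiset.replicate (x + y + z) 3 + Z1) := by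
      apply (Multiset.cons_inj_right d).1
      rw [← hY]
      simp only [← Multiset.singleton_add]
      abel
    rw [h3]
    simp only [← Multiset.singleton_add]
    abel

end Pool.Agent.P3G
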