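import Pool.Agent.P3G.Sched

/-!
# The main loop (MP_a5fcbe_co)

`Zf r4 r5 X`: facets of the sizes `x + 5`, `x ∈ X`, `r4` facets of size `4`, `r5` of size `5`, and one triangle.
`loop`: induction on the number of elements of `X`; `e` is the slack, `2 r4 + r5 = 2 e + 2 + g + ∑ (x - 1)`.
At the level `g` choose `x ∈ X` with `x ≠ g - 1` (`step`); it takes `min (g - 1) x` facets of size `4`. If there are fewer
(one has to remain), then the level is first lowered to `r4` by facets of size `5`. If all `x ∈ X` are equal to `g - 1` the level is lowered by one, or, if there are no facets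
of size `5`, `fix` is used (once), after that `const`.
`loop2`: one more element, which may be large.
-/

set_option autoImplicit false

namespace Pool.Agent.P3G

open Pool.Agent.P3F Multiset

/-- The facets which have still to be placed. -/
def Zf (r4 r5 : ℕ) (X : Multiset ℕ) : Multiset ℕ :=
  X.map (· + 5) + (replicate r4 4 + (replicate r5 5 + {3}))

theorem Zf_zero (r4 r5 : ℕ) : Zf r4 r5 0 = replicate r4 4 + (replicate r5 5 + {3}) := by
  unfold Zf
  rw [map_zero, zero_add]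

theorem Zf_cons (r4 r5 a b x : ℕ) (X : Multiset ℕ) : Zf (a + r4) (b + r5) (x ::ₘ X) =
    replicate b 5 + ((x + 5) ::ₘ (replicate a 4 + Zf r4 r5 X)) := by
  unfold Zf
  rw [map_cons, replicate_add, replicate_add]
  simp only [← singleton_add]
  abel

theorem Zf_five (r4 r5 : ℕ) (X : Multiset ℕ) : Zf r4 (r5 + 1) X = 5 ::ₘ Zf r4 r5 X := by
  unfold Zf
  rw [replicate_succ]
  simp only [← singleton_add]
  abel

theorem card_le_sum {X : Multiset ℕ} (h : ∀ x ∈ X, 2 ≤ x) : 2 * card X ≤ X.sum := by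
  have h1 := Multiset.card_nsmul_le_sum h
  rw [smul_eq_mul] at h1
  omega

/-- Placing one facet. -/
theorem step {e g r4 r5 x : ℕ} {X : Multiset ℕ}
    (IH : ∀ g r4 r5 : ℕ, 1 ≤ g → 1 ≤ r4 → (g ≤ 2 * e ∨ ∀ y ∈ X, y + 1 ≤ 2 * e) →
      2 * r4 + r5 + card X = 2 * e + 2 + g + X.sum → r4 ≤ 2 * e + 1 + X.sum →
      Der 1 2 (g + 2) (Zf r4 r5 X))
    (he : 1 ≤ e) (hX : ∀ y ∈ X, 2 ≤ y) (hg : 1 ≤ g) (hr4 : 1 ≤ r4) (hx : 2 ≤ x)
    (hx2 : x ≤ 2 * e ∨ (x ≤ g ∧ ∀ y ∈ X, y + 1 ≤ 2 * e))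
    (hG : g ≤ 2 * e ∨ ∀ y ∈ X, y + 1 ≤ 2 * e)
    (hrel : 2 * r4 + r5 + card X + 1 = 2 * e + 2 + g + x + X.sum)
    (hI : r4 ≤ 2 * e + 1 + x + X.sum) (hne : x + 1 ≠ g) :
    Der 1 2 (g + 2) (Zf r4 r5 (x ::ₘ X)) := by
  have hc := card_le_sum hX
  by_cases h1 : r4 ≤ x ∧ r4 < g
  · -- lower the level to `r4`
    obtain ⟨h1, h2⟩ := h1
    obtain ⟨b, hb⟩ : ∃ b, g = r4 + b := ⟨g - r4, by omega⟩
    obtain ⟨j, hj⟩ : ∃ j, r4 = j + 1 := ⟨r4 - 1, by omega⟩
    obtain ⟨r, hr⟩ : ∃ r, r5 = b + r := ⟨r5 - b, by omega⟩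
    obtain ⟨w, hw⟩ : ∃ w, x = w + j := ⟨x - j, by omega⟩
    have h3 := IH w 1 r (by omega) le_rfl (by
      rcases hx2 with h | h
      · exact Or.inl (by omega)
      · exact Or.inr h.2) (by omega) (by omega)
    have h4 := T5s b (insB w j h3)
    rw [hr, show r4 = j + 1 by omega, Zf_cons, hw, show g + 2 = j + 1 + 2 + b by omega]
    exact h4
  · rcases Nat.lt_or_ge (x + 1) g with h2 | h2
    · -- the level is larger
      obtain ⟨w, hw⟩ : ∃ w, g = w + x + 1 := ⟨g - x - 1, by omega⟩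
      obtain ⟨s, hs⟩ : ∃ s, r4 = x + s := ⟨r4 - x, by omega⟩
      have h3 := IH w s r5 (by omega) (by omega) (by
        rcases hG with h | h
        · exact Or.inl (by omega)
        · exact Or.inr h) (by omega) (by omega)
      have h4 := T5s 0 (insA w x h3)
      have e1 : Zf r4 r5 (x ::ₘ X) = Zf (x + s) (0 + r5) (x ::ₘ X) := by rw [hs, Nat.zero_add]
      rw [e1, Zf_cons, hw]
      exact h4
    · obtain ⟨j, hj⟩ : ∃ j, g = j + 1 := ⟨g - 1, by omega⟩
      obtain ⟨w, hw⟩ : ∃ w, x = w + j := ⟨x - j, by omega⟩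
      obtain ⟨s, hs⟩ : ∃ s, r4 = j + s := ⟨r4 - j, by omega⟩
      have hw2 : w ≤ 2 * e := by
        rcases hx2 with h | h
        · omega
        · omega
      have h3 := IH w s r5 (by omega) (by omega) (Or.inl hw2) (by omega) (by omega)
      have h4 := T5s 0 (insB w j h3)
      have e1 : Zf r4 r5 (x ::ₘ X) = Zf (j + s) (0 + r5) (x ::ₘ X) := by rw [hs, Nat.zero_add]
      rw [e1, Zf_cons, hw, hj]
      exact h4

/-- All the facets are equal, no facets of size `5`. -/
theorem const {e y : ℕ} (he : 1 ≤ e) (hy : 2 ≤ y) (hye : y ≤ 2 * e + 1) (k : ℕ) :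
    (∀ r4 : ℕ, 2 * r4 + k = 2 * e + 4 + k * y → Der 1 2 4 (Zf r4 0 (replicate k y))) ∧
    (∀ r4 : ℕ, 2 * r4 + k + 1 = 2 * e + 2 + y + k * y →
      Der 1 2 (y + 1) (Zf r4 0 (replicate k y))) := by
  induction k with
  | zero =>
    constructor
    · intro r4 h
      rw [replicate_zero, Zf_zero]
      exact fin (e := e) (g := 2) (by omega) (by omega) (by omega)
    · intro r4 h
      rw [replicate_zero, Zf_zero]
      have h1 := fin (e := e) (g := y - 1) (r4 := r4) (r5 := 0) (by omega) (by omega) (by omega)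
      rw [show y - 1 + 2 = y + 1 by omega] at h1
      exact h1
  | succ k ih =>
    obtain ⟨ih1, ih2⟩ := ih
    have hmul : (k + 1) * y = k * y + y := by ring
    have hky : 2 * k ≤ k * y := by nlinarith
    constructor
    · intro r4 h
      obtain ⟨s, hs⟩ : ∃ s, r4 = 1 + s := ⟨r4 - 1, by omega⟩
      have h1 := ih2 s (by omega)
      have h2 := insB (y - 1) 1 (show Der 1 2 (y - 1 + 2) _ by
        rw [show y - 1 + 2 = y + 1 by omega]; exact h1)
      have e1 : Zf r4 0 (replicate (k + 1) y) = Zf (1 + s) (0 + 0) (y ::ₘ replicate k y) := by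
        rw [hs, replicate_succ]
      rw [e1, Zf_cons, replicate_zero, zero_add]
      rw [show y - 1 + 1 + 5 = y + 5 by omega] at h2
      exact h2
    · intro r4 h
      obtain ⟨s, hs⟩ : ∃ s, r4 = (y - 2) + s := ⟨r4 - (y - 2), by omega⟩
      have h1 := ih1 s (by omega)
      have h2 := insB 2 (y - 2) h1
      have e1 : Zf r4 0 (replicate (k + 1) y) = Zf ((y - 2) + s) (0 + 0) (y ::ₘ replicate k y) := by
        rw [hs, replicate_succ]
      rw [e1, Zf_cons, replicate_zero, zero_add]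
      rw [show 2 + (y - 2) + 5 = y + 5 by omega, show y - 2 + 1 + 2 = y + 1 by omega] at h2
      exact h2

theorem loop (n : ℕ) : ∀ (e g r4 r5 : ℕ) (X : Multiset ℕ), card X = n → 1 ≤ e → 1 ≤ g → 1 ≤ r4 →
    (∀ x ∈ X, 2 ≤ x ∧ x ≤ 2 * e) → (g ≤ 2 * e ∨ ∀ x ∈ X, x + 1 ≤ 2 * e) →
    2 * r4 + r5 + card X = 2 * e + 2 + g + X.sum → r4 ≤ 2 * e + 1 + X.sum →
    Der 1 2 (g + 2) (Zf r4 r5 X) := by
  induction n with
  | zero =>
    intro e g r4 r5 X hn he hg hr4 hX hG hrel hI
    rw [card_eq_zero] at hn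
    subst hn
    rw [Zf_zero]
    simp only [card_zero, sum_zero] at hrel hI
    exact fin (e := e) hr4 (by omega) (by omega)
  | succ n ih =>
    intro e g r4 r5 X hn he hg hr4 hX hG hrel hI
    -- one step for a given element
    have key : ∀ (g r5 x : ℕ) (X' : Multiset ℕ), X = x ::ₘ X' → 1 ≤ g →
        (g ≤ 2 * e ∨ ∀ x ∈ X, x + 1 ≤ 2 * e) → 2 * r4 + r5 + card X = 2 * e + 2 + g + X.sum →
        x + 1 ≠ g → Der 1 2 (g + 2) (Zf r4 r5 X) := by
      intro g r5 x X' hXX hg hG hrel hne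
      subst hXX
      rw [card_cons] at hn
      rw [card_cons, sum_cons] at hrel
      rw [sum_cons] at hI
      refine step (e := e) (fun g r4 r5 h1 h2 h3 h4 h5 => ih e g r4 r5 X' (by omega) he h1 h2
        (fun x hx => hX x (mem_cons_of_mem hx)) h3 h4 h5) he
        (fun y hy => (hX y (mem_cons_of_mem hy)).1) hg hr4 (hX x (mem_cons_self x X')).1
        (Or.inl (hX x (mem_cons_self x X')).2) ?_ (by omega) (by omega) hne
      rcases hG with h | h
      · exact Or.inl h
      · exact Or.inr fun y hy => h y (mem_cons_of_mem hy)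
    by_cases hex : ∃ x ∈ X, x + 1 ≠ g
    · obtain ⟨x, hx, hxg⟩ := hex
      obtain ⟨X', hX'⟩ := exists_cons_of_mem hx
      exact key g r5 x X' hX' hg hG hrel hxg
    · push Not at hex
      have hrep : X = replicate (n + 1) (g - 1) := by
        rw [eq_replicate]
        exact ⟨hn, fun b hb => by have := hex b hb; omega⟩
      have hmem : g - 1 ∈ X := by
        rw [hrep, replicate_succ]
        exact mem_cons_self _ _
      have hy := hX _ hmem
      have hye : g - 1 + 1 ≤ 2 * e := by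
        rcases hG with h | h
        · omega
        · exact h _ hmem
      rcases Nat.eq_zero_or_pos r5 with h5 | h5
      · subst h5
        have hsum : X.sum = (n + 1) * (g - 1) := by
          rw [hrep, sum_replicate, smul_eq_mul]
        obtain ⟨y, hyy⟩ : ∃ y, g = y + 1 := ⟨g - 1, by omega⟩
        subst hyy
        rw [Nat.add_sub_cancel] at hrep hsum hmem hy hye
        have hmul : (n + 1) * y = n * y + y := by ring
        have hny : 2 * n ≤ n * y := by nlinarith [hy.1]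
        obtain ⟨s, hs⟩ : ∃ s, r4 = y + s := ⟨r4 - y, by omega⟩
        have h1 := (const (e := e - 1) (y := y) (by omega) (by omega) (by omega) n).1 s (by
          rw [hn] at hrel
          omega)
        have h2 := fix (y := y) (by omega) h1
        have e1 : Zf r4 0 X = Zf (y + s) (0 + 0) (y ::ₘ replicate n y) := by
          rw [hs, hrep, replicate_succ]
        rw [e1, Zf_cons, replicate_zero, zero_add]
        exact h2
      · obtain ⟨X', hX'⟩ := exists_cons_of_mem hmem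
        obtain ⟨r, hr⟩ : ∃ r, r5 = r + 1 := ⟨r5 - 1, by omega⟩
        have h1 := key (g - 1) r (g - 1) X' hX' (by omega) (Or.inl (by omega)) (by omega) (by omega)
        have h2 := T5 h1
        rw [hr, Zf_five, show g + 2 = g - 1 + 2 + 1 by omega]
        exact h2

theorem loop2 {e g r4 r5 x : ℕ} {X : Multiset ℕ} (he : 2 ≤ e) (hg : 1 ≤ g) (hr4 : 1 ≤ r4)
    (hx : 2 ≤ x) (hxg : x ≤ g) (hX : ∀ y ∈ X, 2 ≤ y ∧ y + 2 ≤ 2 * e)
    (hrel : 2 * r4 + r5 + card X + 1 = 2 * e + 2 + g + x + X.sum)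
    (hI : r4 ≤ 2 * e + 1 + x + X.sum) : Der 1 2 (g + 2) (Zf r4 r5 (x ::ₘ X)) := by
  have hX1 : ∀ y ∈ X, y + 1 ≤ 2 * e := fun y hy => by have := (hX y hy).2; omega
  have hc := card_le_sum fun y hy => (hX y hy).1
  have key : ∀ g r5 : ℕ, 1 ≤ g → x ≤ g →
      2 * r4 + r5 + card X + 1 = 2 * e + 2 + g + x + X.sum → x + 1 ≠ g →
      Der 1 2 (g + 2) (Zf r4 r5 (x ::ₘ X)) := by
    intro g r5 hg hxg hrel hne
    exact step (e := e) (fun g r4 r5 h1 h2 h3 h4 h5 => loop _ e g r4 r5 X rfl (by omega) h1 h2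
      (fun y hy => ⟨(hX y hy).1, by have := (hX y hy).2; omega⟩) h3 h4 h5) (by omega)
      (fun y hy => (hX y hy).1) hg hr4 hx (Or.inr ⟨hxg, hX1⟩) (Or.inr hX1) hrel hI hne
  by_cases hne : x + 1 ≠ g
  · exact key g r5 hg hxg hrel hne
  · push Not at hne
    subst hne
    rcases Nat.eq_zero_or_pos r5 with h5 | h5
    · subst h5
      obtain ⟨s, hs⟩ : ∃ s, r4 = x + s := ⟨r4 - x, by omega⟩
      have h1 := loop _ (e - 1) 2 s 0 X rfl (by omega) (by omega) (by omega)
        (fun y hy => ⟨(hX y hy).1, by have := (hX y hy).2; omega⟩) (Or.inl (by omega))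
        (by omega) (by omega)
      have h2 := fix hx h1
      have e1 : Zf r4 0 (x ::ₘ X) = Zf (x + s) (0 + 0) (x ::ₘ X) := by rw [hs]
      rw [e1, Zf_cons, replicate_zero, zero_add]
      exact h2
    · obtain ⟨r, hr⟩ : ∃ r, r5 = r + 1 := ⟨r5 - 1, by omega⟩
      have h1 := key x r (by omega) le_rfl (by omega) (by omega)
      have h2 := T5 h1
      rw [hr, Zf_five, show x + 1 + 2 = x + 2 + 1 by omega]
      exact h2

end Pool.Agent.P3G
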