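import Pool.Agent.P3G.Ra

/-!
# Induction on the number of triangles, for the state `(1, 2, 3)` (MP_a5fcbe_co)
-/

set_option autoImplicit false

namespace Pool.Agent.P3G

open Pool.Agent.P3F Multiset

theorem raZ_x {a b c t3 t4 t5 t6 x : ℕ} {X : Multiset ℕ} (h : Der a b c (Yf t3 t4 t5 t6 (x ::ₘ X))) :
    Der a b c (Yf (t3 + 1) t4 t5 t6 ((x + 1) ::ₘ X)) := by
  have h1 := h.ra (x + 5) (Yf t3 t4 t5 t6 X) (by
    unfold Yf
    rw [map_cons]
    simp only [← singleton_add]
    abel) (by omega)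
  have e : Yf (t3 + 1) t4 t5 t6 ((x + 1) ::ₘ X) = (x + 5 + 1) ::ₘ 3 ::ₘ Yf t3 t4 t5 t6 X := by
    unfold Yf
    rw [map_cons, replicate_succ, show x + 1 + 5 = x + 5 + 1 by omega]
    simp only [← singleton_add]
    abel
  rw [e]; exact h1

theorem raZ_6 {a b c t3 t4 t5 t6 : ℕ} {X : Multiset ℕ} (h : Der a b c (Yf t3 t4 t5 (t6 + 1) X)) :
    Der a b c (Yf (t3 + 1) t4 t5 t6 (2 ::ₘ X)) := by
  have h1 := h.ra 6 (Yf t3 t4 t5 t6 X) (by
    unfold Yf
    rw [replicate_succ (n := t6)]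
    simp only [← singleton_add]
    abel) (by omega)
  have e : Yf (t3 + 1) t4 t5 t6 (2 ::ₘ X) = (6 + 1) ::ₘ 3 ::ₘ Yf t3 t4 t5 t6 X := by
    unfold Yf
    rw [map_cons, replicate_succ]
    simp only [← singleton_add, Nat.reduceAdd]
    abel
  rw [e]; exact h1

theorem raZ_5 {a b c t3 t4 t5 t6 : ℕ} {X : Multiset ℕ} (h : Der a b c (Yf t3 t4 (t5 + 1) t6 X)) :
    Der a b c (Yf (t3 + 1) t4 t5 (t6 + 1) X) := by
  have h1 := h.ra 5 (Yf t3 t4 t5 t6 X) (by
    unfold Yf
    rw [replicate_succ (n := t5)]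
    simp only [← singleton_add]
    abel) (by omega)
  have e : Yf (t3 + 1) t4 t5 (t6 + 1) X = (5 + 1) ::ₘ 3 ::ₘ Yf t3 t4 t5 t6 X := by
    unfold Yf
    rw [replicate_succ (n := t3), replicate_succ (n := t6)]
    simp only [← singleton_add, Nat.reduceAdd]
    abel
  rw [e]; exact h1

theorem raZ_4 {a b c t3 t4 t5 t6 : ℕ} {X : Multiset ℕ} (h : Der a b c (Yf t3 (t4 + 1) t5 t6 X)) :
    Der a b c (Yf (t3 + 1) t4 (t5 + 1) t6 X) := by
  have h1 := h.ra 4 (Yf t3 t4 t5 t6 X) (by
    unfold Yf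
    rw [replicate_succ (n := t4)]
    simp only [← singleton_add]
    abel) (by omega)
  have e : Yf (t3 + 1) t4 (t5 + 1) t6 X = (4 + 1) ::ₘ 3 ::ₘ Yf t3 t4 t5 t6 X := by
    unfold Yf
    rw [replicate_succ (n := t3), replicate_succ (n := t5)]
    simp only [← singleton_add, Nat.reduceAdd]
    abel
  rw [e]; exact h1

/-- Only triangles and quadrangles. -/
theorem z34 (s k : ℕ) : Der 1 2 3 (replicate (2 + 2 * s) 3 + replicate (k + 1) 4) ∧
    Der 1 2 3 (replicate (4 + 2 * s) 3) := by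
  induction s with
  | zero =>
    constructor
    · have h := T (n := 0) (e012 k).rot
      have e : replicate (2 + 2 * 0) 3 + replicate (k + 1) 4 =
          (0 + 3) ::ₘ (replicate (k + 1) 4 + ({3} : Multiset ℕ)) := by
        simp only [← singleton_add, replicate_succ, replicate_zero, add_zero, zero_add, mul_zero]
        abel
      rw [e]; exact h
    · have h1 : Der 0 1 0 {3} := by simpa using R Der.done
      have h2 : Der 0 2 0 (3 ::ₘ {3}) := R (n := 0) h1.swap
      have h3 : Der 0 1 2 (3 ::ₘ 3 ::ₘ {3}) := R (n := 0) (b := 0) (c := 2) h2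
      have h4 := T (n := 0) h3.rot
      have e : replicate (4 + 2 * 0) 3 = (0 + 3) ::ₘ (3 ::ₘ 3 ::ₘ ({3} : Multiset ℕ)) := by
        simp only [← singleton_add, replicate_succ, replicate_zero, add_zero, zero_add, mul_zero]
      rw [e]; exact h4
  | succ s ih =>
    obtain ⟨h1, h2⟩ := ih
    constructor
    · have h3 := h1.two
      rw [show 2 + 2 * (s + 1) = 2 + 2 * s + 1 + 1 by omega, replicate_succ (n := 2 + 2 * s + 1),
        replicate_succ (n := 2 + 2 * s), cons_add, cons_add]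
      exact h3
    · have h3 := h2.two
      rw [show 4 + 2 * (s + 1) = 4 + 2 * s + 1 + 1 by omega, replicate_succ, replicate_succ]
      exact h3

theorem Yf_one (t4 t5 t6 : ℕ) (X : Multiset ℕ) : Yf 1 t4 t5 t6 X =
    replicate t6 6 + Zf t4 t5 X := by
  unfold Yf Zf
  rw [replicate_one]
  abel

theorem baseZ {e r4 r5 r6 m : ℕ} {X : Multiset ℕ} (h4 : 1 ≤ r4) (hm : 6 ≤ m)
    (hX : ∀ x ∈ X, 2 ≤ x ∧ x + 5 ≤ m) (hsum : X.sum + m ≤ 2 * r4 + r5 + card X)
    (hrel : 2 * r4 + r5 + card X = 2 * e + 3 + X.sum) : Der 1 2 3 (Yf 1 r4 r5 r6 X) := by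
  rw [Yf_one]
  refine T6s r6 ?_
  by_cases hX0 : X = 0
  · subst hX0
    simp only [card_zero, sum_zero, add_zero] at hrel hsum
    rw [Zf_zero]
    exact fin (e := e) (g := 1) h4 (by omega) (by omega)
  · obtain ⟨x1, X1, rfl, hm1⟩ := exists_max hX0
    have hx1 := hX x1 (mem_cons_self _ _)
    rw [card_cons, sum_cons] at hrel hsum
    have hce := card_le_sum (X := X1) fun y hy => (hX y (mem_cons_of_mem hy)).1
    have key : Der 1 2 (x1 + 2) (Zf r4 r5 X1) := by
      by_cases hX1 : X1 = 0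
      · subst hX1
        rw [Zf_zero]
        simp only [card_zero, sum_zero, add_zero] at hrel hsum hce
        exact fin (e := e) h4 (by omega) (by omega)
      · obtain ⟨x2, X2, rfl, hm2⟩ := exists_max hX1
        have hx2 := hX x2 (mem_cons_of_mem (mem_cons_self _ _))
        rw [card_cons, sum_cons] at hrel hsum hce
        refine loop2 (e := e) (by omega) (by omega) h4 hx2.1 (hm1 x2 (mem_cons_self _ _)) ?_
          (by omega) (by omega)
        intro y hy
        have hy2 := hX y (mem_cons_of_mem (mem_cons_of_mem hy))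
        exact ⟨hy2.1, by omega⟩
    have h1 := T key
    have e1 : Zf r4 r5 (x1 ::ₘ X1) = (x1 + 2 + 3) ::ₘ Zf r4 r5 X1 := by
      unfold Zf
      rw [map_cons, show x1 + 5 = x1 + 2 + 3 by omega, cons_add]
    rw [e1]
    exact h1

theorem mainZ (s : ℕ) : ∀ (r4 r5 r6 m : ℕ) (X : Multiset ℕ), 1 ≤ s + r4 → 6 ≤ m →
    (∀ x ∈ X, 2 ≤ x ∧ x + 5 ≤ m) → X.sum + m + 1 ≤ s + 1 + 2 * r4 + r5 + card X →
    (∃ e, 3 * (s + 1) + 2 * r4 + r5 + card X = 6 + 2 * e + X.sum) →
    Der 1 2 3 (Yf (s + 1) r4 r5 r6 X) := by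
  induction s with
  | zero =>
    intro r4 r5 r6 m X h4 hm hX hsum hpar
    obtain ⟨e, he⟩ := hpar
    exact baseZ (e := e) (m := m) (by omega) hm hX (by omega) (by omega)
  | succ s ih =>
    intro r4 r5 r6 m X h4 hm hX hsum hpar
    obtain ⟨e, he⟩ := hpar
    have hcs := card_le_sum fun x hx => (hX x hx).1
    by_cases hcase : s + r4 = 0
    · obtain ⟨j, rfl⟩ : ∃ j, r5 = j + 1 := ⟨r5 - 1, by omega⟩
      exact raZ_4 (ih (r4 + 1) j r6 m X (by omega) hm hX (by omega) ⟨e - 1, by omega⟩)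
    have h4' : 1 ≤ s + r4 := by omega
    by_cases hX0 : X = 0
    · subst hX0
      simp only [card_zero, sum_zero, add_zero] at hsum he
      rcases Nat.eq_zero_or_pos r6 with h6 | h6
      · subst h6
        rcases Nat.eq_zero_or_pos r5 with h5 | h5
        · subst h5
          have e1 : Yf (s + 1 + 1) r4 0 0 0 = replicate (s + 2) 3 + replicate r4 4 := Yf34 _ _
          rw [e1]
          rcases Nat.eq_zero_or_pos r4 with h7 | h7
          · subst h7
            obtain ⟨j, hj⟩ : ∃ j, s + 2 = 4 + 2 * j := ⟨(s - 2) / 2, by omega⟩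
            rw [hj, replicate_zero, add_zero]
            exact (z34 j 0).2
          · obtain ⟨k, rfl⟩ : ∃ k, r4 = k + 1 := ⟨r4 - 1, by omega⟩
            obtain ⟨j, hj⟩ : ∃ j, s + 2 = 2 + 2 * j := ⟨s / 2, by omega⟩
            rw [hj]
            exact (z34 j k).1
        · obtain ⟨j, rfl⟩ : ∃ j, r5 = j + 1 := ⟨r5 - 1, by omega⟩
          refine raZ_4 (ih (r4 + 1) j 0 m 0 (by omega) hm hX ?_ ⟨e - 1, ?_⟩)
          · simp only [card_zero, sum_zero, add_zero]
            omega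
          · simp only [card_zero, sum_zero, add_zero]
            omega
      · obtain ⟨j, rfl⟩ : ∃ j, r6 = j + 1 := ⟨r6 - 1, by omega⟩
        refine raZ_5 (ih r4 (r5 + 1) j m 0 (by omega) hm hX ?_ ⟨e - 1, ?_⟩)
        · simp only [card_zero, sum_zero, add_zero]
          omega
        · simp only [card_zero, sum_zero, add_zero]
          omega
    · obtain ⟨x, X', rfl, hmax⟩ := exists_max hX0
      have hx2 := hX x (mem_cons_self _ _)
      rw [card_cons, sum_cons] at hsum he hcs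
      rcases Nat.lt_or_ge 2 x with h1 | h1
      · obtain ⟨y, rfl⟩ : ∃ y, x = y + 1 := ⟨x - 1, by omega⟩
        refine raZ_x (ih r4 r5 r6 m (y ::ₘ X') h4' hm ?_ ?_ ⟨e - 1, ?_⟩)
        · intro z hz
          rw [mem_cons] at hz
          rcases hz with hz | hz
          · omega
          · exact hX z (mem_cons_of_mem hz)
        · rw [card_cons, sum_cons]
          omega
        · rw [card_cons, sum_cons]
          omega
      · obtain rfl : x = 2 := by omega
        exact raZ_6 (ih r4 r5 (r6 + 1) m X' h4' hm (fun z hz => hX z (mem_cons_of_mem hz))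
          (by omega) ⟨e - 1, by omega⟩)

end Pool.Agent.P3G
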