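import Pool.Agent.P3G.Base2

/-!
# Induction on the number of triangles (MP_a5fcbe_co)

`main`: with an arbitrary number of facets of size `6`, under an inequality which bounds the large facets by those of the sizes `3`, `4`, `5`.
`many3`: if there are many triangles.
-/

set_option autoImplicit false

namespace Pool.Agent.P3G

open Pool.Agent.P3F Multiset

theorem ra_x {t3 t4 t5 t6 x : ℕ} {X : Multiset ℕ} (h : Tot (Yf t3 t4 t5 t6 (x ::ₘ X))) :
    Tot (Yf (t3 + 1) t4 t5 t6 ((x + 1) ::ₘ X)) := by
  have h1 := h.ra (d := x + 5) (Y' := Yf t3 t4 t5 t6 X) (by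
    unfold Yf
    rw [map_cons]
    simp only [← singleton_add]
    abel) (by omega)
  have e : Yf (t3 + 1) t4 t5 t6 ((x + 1) ::ₘ X) = (x + 5 + 1) ::ₘ 3 ::ₘ Yf t3 t4 t5 t6 X := by
    unfold Yf
    rw [map_cons, replicate_succ, show x + 1 + 5 = x + 5 + 1 by omega]
    simp only [← singleton_add]
    abel
  rw [e]; exact h1

theorem ra_6 {t3 t4 t5 t6 : ℕ} {X : Multiset ℕ} (h : Tot (Yf t3 t4 t5 (t6 + 1) X)) :
    Tot (Yf (t3 + 1) t4 t5 t6 (2 ::ₘ X)) := by
  have h1 := h.ra (d := 6) (Y' := Yf t3 t4 t5 t6 X) (by
    unfold Yf
    rw [replicate_succ (n := t6)]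
    simp only [← singleton_add]
    abel) (by omega)
  have e : Yf (t3 + 1) t4 t5 t6 (2 ::ₘ X) = (6 + 1) ::ₘ 3 ::ₘ Yf t3 t4 t5 t6 X := by
    unfold Yf
    rw [map_cons, replicate_succ]
    simp only [← singleton_add, Nat.reduceAdd]
    abel
  rw [e]; exact h1

theorem ra_5 {t3 t4 t5 t6 : ℕ} {X : Multiset ℕ} (h : Tot (Yf t3 t4 (t5 + 1) t6 X)) :
    Tot (Yf (t3 + 1) t4 t5 (t6 + 1) X) := by
  have h1 := h.ra (d := 5) (Y' := Yf t3 t4 t5 t6 X) (by
    unfold Yf
    rw [replicate_succ (n := t5)]
    simp only [← singleton_add]
    abel) (by omega)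
  have e : Yf (t3 + 1) t4 t5 (t6 + 1) X = (5 + 1) ::ₘ 3 ::ₘ Yf t3 t4 t5 t6 X := by
    unfold Yf
    rw [replicate_succ (n := t3), replicate_succ (n := t6)]
    simp only [← singleton_add, Nat.reduceAdd]
    abel
  rw [e]; exact h1

theorem ra_4 {t3 t4 t5 t6 : ℕ} {X : Multiset ℕ} (h : Tot (Yf t3 (t4 + 1) t5 t6 X)) :
    Tot (Yf (t3 + 1) t4 (t5 + 1) t6 X) := by
  have h1 := h.ra (d := 4) (Y' := Yf t3 t4 t5 t6 X) (by
    unfold Yf
    rw [replicate_succ (n := t4)]
    simp only [← singleton_add]
    abel) (by omega)
  have e : Yf (t3 + 1) t4 (t5 + 1) t6 X = (4 + 1) ::ₘ 3 ::ₘ Yf t3 t4 t5 t6 X := by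
    unfold Yf
    rw [replicate_succ (n := t3), replicate_succ (n := t5)]
    simp only [← singleton_add, Nat.reduceAdd]
    abel
  rw [e]; exact h1

theorem Yf34 (t3 t4 : ℕ) : Yf t3 t4 0 0 0 = replicate t3 3 + replicate t4 4 := by
  unfold Yf
  rw [map_zero]
  simp only [replicate_zero, add_zero]

theorem Tot34 {t3 t4 e : ℕ} (h2 : 2 ≤ t3) (h : 3 * t3 + 2 * t4 = 12 + 2 * e) :
    Tot (Yf t3 t4 0 0 0) := by
  rw [Yf34]
  by_cases h3 : t3 = 2
  · subst h3
    obtain ⟨k, rfl⟩ : ∃ k, t4 = k + 3 := ⟨t4 - 3, by omega⟩
    exact Tot34a k
  · obtain ⟨s, rfl⟩ : ∃ s, t3 = 4 + 2 * s := ⟨(t3 - 4) / 2, by omega⟩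
    exact Tot34c s t4

theorem card_filter_le_sum (X : Multiset ℕ) (m : ℕ) :
    card (X.filter fun x => m < x + 5) ≤ (X.map fun x => x + 5 - m).sum := by
  induction X using Multiset.induction_on with
  | empty => simp
  | cons a X ih =>
    rw [map_cons, sum_cons]
    by_cases h : m < a + 5
    · rw [filter_cons_of_pos (p := fun x => m < x + 5) _ h, card_cons]
      omega
    · rw [filter_cons_of_neg (p := fun x => m < x + 5) _ h]
      omega

theorem main (s : ℕ) : ∀ (t4 t5 t6 m : ℕ) (X : Multiset ℕ), 2 ≤ s + t4 → 1 ≤ t5 → 6 ≤ m →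
    (∀ x ∈ X, 2 ≤ x) → X.sum + m + 5 ≤ s + 2 + 2 * t4 + t5 + card X →
    (∃ e, 3 * (s + 2) + 2 * t4 + t5 + card X = 12 + 2 * e + X.sum) →
    (∀ x ∈ X, x + 6 ≤ s + 2 + t4 + t5 + t6 + card X) →
    (card (X.filter fun x => m < x + 5) ≤ 2 ∨ (X.map fun x => x + 5 - m).sum ≤ s) →
    Tot (Yf (s + 2) t4 t5 t6 X) := by
  induction s with
  | zero =>
    intro t4 t5 t6 m X h4 h5 hm hX hsum hpar hC hH
    obtain ⟨e, he⟩ := hpar
    have hH' : card (X.filter fun x => 2 * e < x + 2) ≤ 2 := by
      have h1 : card (X.filter fun x => m < x + 5) ≤ 2 := by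
        rcases hH with h | h
        · exact h
        · have h2 : X.filter (fun x => m < x + 5) = 0 := by
            rw [filter_eq_nil]
            intro x hx hlt
            have h3 := Multiset.single_le_sum (fun _ _ => Nat.zero_le _) (x + 5 - m)
              (mem_map_of_mem (fun x => x + 5 - m) hx)
            omega
          rw [h2, card_zero]
          omega
      refine le_trans (card_le_card (monotone_filter_right X ?_)) h1
      intro x hx
      omega
    exact base2 (e := e) (by omega) (by omega) h5 hX (by omega) hH' (fun x hx => by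
      have := hC x hx
      omega)
  | succ s ih =>
    intro t4 t5 t6 m X h4 h5 hm hX hsum hpar hC hH
    obtain ⟨e, he⟩ := hpar
    have hcs := card_le_sum hX
    by_cases hcase : s + 1 + t4 = 2
    · -- few facets of size three and four
      obtain ⟨j, rfl⟩ : ∃ j, t5 = j + 1 := ⟨t5 - 1, by omega⟩
      refine ra_4 (ih (t4 + 1) j t6 m X (by omega) (by omega) hm hX (by omega) ⟨e - 1, by omega⟩
        ?_ (Or.inl ?_))
      · intro x hx
        have h1 := hC x hx
        by_contra hcon
        obtain ⟨X', rfl⟩ := exists_cons_of_mem hx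
        rw [card_cons, sum_cons] at hsum he
        rw [card_cons] at h1 hcon
        have h2 := card_le_sum (X := X') fun y hy => hX y (mem_cons_of_mem hy)
        omega
      · rcases hH with h | h
        · exact h
        · have := card_filter_le_sum X m
          omega
    have h4' : 2 ≤ s + t4 := by omega
    by_cases hX0 : X = 0
    · subst hX0
      simp only [card_zero, sum_zero, add_zero] at hsum he
      rcases Nat.eq_zero_or_pos t6 with h6 | h6
      · subst h6
        rcases Nat.lt_or_ge t5 2 with h7 | h7
        · obtain rfl : t5 = 1 := by omega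
          exact ra_4 (Tot34 (e := e - 1) (by omega) (by omega))
        · obtain ⟨j, rfl⟩ : ∃ j, t5 = j + 1 := ⟨t5 - 1, by omega⟩
          refine ra_4 (ih (t4 + 1) j 0 m 0 (by omega) (by omega) hm hX ?_ ⟨e - 1, ?_⟩ ?_ ?_)
          · simp only [card_zero, sum_zero, add_zero]
            omega
          · simp only [card_zero, sum_zero, add_zero]
            omega
          · intro x hx
            exact absurd hx (notMem_zero x)
          · left
            simp
      · obtain ⟨j, rfl⟩ : ∃ j, t6 = j + 1 := ⟨t6 - 1, by omega⟩
        refine ra_5 (ih t4 (t5 + 1) j m 0 (by omega) (by omega) hm hX ?_ ⟨e - 1, ?_⟩ ?_ ?_)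
        · simp only [card_zero, sum_zero, add_zero]
          omega
        · simp only [card_zero, sum_zero, add_zero]
          omega
        · intro x hx
          exact absurd hx (notMem_zero x)
        · left
          simp
    · obtain ⟨x, X', rfl, hmax⟩ := exists_max hX0
      have hx2 := hX x (mem_cons_self _ _)
      have hxC := hC x (mem_cons_self _ _)
      rw [card_cons, sum_cons] at hsum he hcs
      rw [card_cons] at hxC
      have hcs' := card_le_sum (X := X') fun y hy => hX y (mem_cons_of_mem hy)
      rcases Nat.lt_or_ge 2 x with h1 | h1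
      · obtain ⟨y, rfl⟩ : ∃ y, x = y + 1 := ⟨x - 1, by omega⟩
        refine ra_x (ih t4 t5 t6 m (y ::ₘ X') h4' h5 hm ?_ ?_ ⟨e - 1, ?_⟩ ?_ ?_)
        · intro z hz
          rw [mem_cons] at hz
          rcases hz with hz | hz
          · omega
          · exact hX z (mem_cons_of_mem hz)
        · rw [card_cons, sum_cons]
          omega
        · rw [card_cons, sum_cons]
          omega
        · intro z hz
          rw [mem_cons] at hz
          rw [card_cons]
          rcases hz with hz | hz
          · omega
          · have h2 := hmax z hz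
            by_contra hcon
            have h3 : z = y + 1 := by omega
            obtain ⟨X2, rfl⟩ := exists_cons_of_mem hz
            rw [card_cons, sum_cons] at hcs' hsum
            rw [card_cons] at hxC hcon
            have hcs2 := card_le_sum (X := X2) fun y hy => hX y (mem_cons_of_mem (mem_cons_of_mem hy))
            omega
        · rcases hH with h | h
          · left
            refine le_trans ?_ h
            by_cases h2 : m < y + 1 + 5
            · rw [filter_cons_of_pos (p := fun x => m < x + 5) _ h2, card_cons]
              by_cases h3 : m < y + 5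
              · rw [filter_cons_of_pos (p := fun x => m < x + 5) _ h3, card_cons]
              · rw [filter_cons_of_neg (p := fun x => m < x + 5) _ h3]
                omega
            · rw [filter_cons_of_neg (p := fun x => m < x + 5) _ h2,
                filter_cons_of_neg (p := fun x => m < x + 5) _ (by omega)]
          · by_cases h2 : m < y + 1 + 5
            · right
              rw [map_cons, sum_cons] at h ⊢
              omega
            · left
              rw [filter_cons_of_neg (p := fun x => m < x + 5) _ (by omega)]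
              have h3 : X'.filter (fun x => m < x + 5) = 0 := by
                rw [filter_eq_nil]
                intro z hz
                have := hmax z hz
                omega
              rw [h3, card_zero]
              omega
      · obtain rfl : x = 2 := by omega
        refine ra_6 (ih t4 t5 (t6 + 1) m X' h4' h5 hm ?_ ?_ ⟨e - 1, ?_⟩ ?_ ?_)
        · intro z hz
          exact hX z (mem_cons_of_mem hz)
        · omega
        · omega
        · intro z hz
          have h2 := hmax z hz
          obtain ⟨X2, rfl⟩ := exists_cons_of_mem hz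
          rw [card_cons] at *
          omega
        · rcases hH with h | h
          · left
            refine le_trans ?_ h
            exact card_le_card (filter_le_filter _ (le_cons_self _ _))
          · by_cases h2 : m < 2 + 5
            · right
              rw [map_cons, sum_cons] at h
              omega
            · left
              have h3 : X'.filter (fun x => m < x + 5) = 0 := by
                rw [filter_eq_nil]
                intro z hz
                have := hmax z hz
                omega
              rw [h3, card_zero]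
              omega

/-- Many triangles. -/
theorem many3 (t3 : ℕ) : ∀ (t4 : ℕ) (W : Multiset ℕ), (∀ k ∈ W, 5 ≤ k) →
    W.sum + 4 ≤ t3 + 4 * card W → (∃ e, 3 * t3 + W.sum = 2 * e) →
    Tot (replicate t3 3 + (replicate t4 4 + W)) := by
  induction t3 with
  | zero =>
    intro t4 W hW h1 h2
    exfalso
    have h3 := Multiset.card_nsmul_le_sum hW
    rw [smul_eq_mul] at h3
    omega
  | succ t3 ih =>
    intro t4 W hW h1 h2
    obtain ⟨e, he⟩ := h2
    by_cases hW0 : W = 0
    · subst hW0
      simp only [card_zero, sum_zero, add_zero, mul_zero, zero_add] at h1 he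
      have h3 := Tot34 (t3 := t3 + 1) (t4 := t4) (e := e + t4 - 6) (by omega) (by omega)
      rw [Yf34] at h3
      rw [add_zero]
      exact h3
    · obtain ⟨k, hk⟩ := exists_mem_of_ne_zero hW0
      obtain ⟨W', rfl⟩ := exists_cons_of_mem hk
      have hk5 := hW k hk
      rw [card_cons, sum_cons] at h1
      rw [sum_cons] at he
      have hW' : ∀ k ∈ W', 5 ≤ k := fun k hk => hW k (mem_cons_of_mem hk)
      by_cases h5 : k = 5
      · subst h5
        have h3 := ih (t4 + 1) W' hW' (by omega) ⟨e - 4, by omega⟩
        have h4 := h3.ra (d := 4) (Y' := replicate t3 3 + (replicate t4 4 + W')) (by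
          rw [replicate_succ]
          simp only [← singleton_add]
          abel) le_rfl
        have e1 : replicate (t3 + 1) 3 + (replicate t4 4 + (5 ::ₘ W')) =
            (4 + 1) ::ₘ 3 ::ₘ (replicate t3 3 + (replicate t4 4 + W')) := by
          rw [replicate_succ]
          simp only [← singleton_add, Nat.reduceAdd]
          abel
        rw [e1]; exact h4
      · obtain ⟨d, rfl⟩ : ∃ d, k = d + 1 := ⟨k - 1, by omega⟩
        have h3 := ih t4 (d ::ₘ W') (by
          intro z hz
          rw [mem_cons] at hz
          rcases hz with hz | hz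
          · omega
          · exact hW' z hz) (by rw [card_cons, sum_cons]; omega) ⟨e - 2, by rw [sum_cons]; omega⟩
        have h4 := h3.ra (d := d) (Y' := replicate t3 3 + (replicate t4 4 + W')) (by
          simp only [← singleton_add]
          abel) (by omega)
        have e1 : replicate (t3 + 1) 3 + (replicate t4 4 + ((d + 1) ::ₘ W')) =
            (d + 1) ::ₘ 3 ::ₘ (replicate t3 3 + (replicate t4 4 + W')) := by
          rw [replicate_succ]
          simp only [← singleton_add]
          abel
        rw [e1]; exact h4

end Pool.Agent.P3G
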