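import Pool.Agent.P3G.Start

/-!
# Schedules (MP_a5fcbe_co)

In all the constructions of this file the state is `(1, 2, g + 2)`, `g ≥ 1` the level. A facet of size `5` lowers the level by one. A facet of size `x + 5`, `x ≥ 1`, together with
`min (g - 1) x` facets of size `4`, leads to the level `|g - 1 - x|`, which has to be positive; this is `insA`, `insB`. If `x = g - 1` and there are no facets of size `5` we lose something
(`fix`). At the end (`fin`) the remaining facets of size `4` and `5` are used.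
-/

set_option autoImplicit false

namespace Pool.Agent.P3G

open Pool.Agent.P3F Multiset

theorem T {b c n : ℕ} {Z : Multiset ℕ} (h : Der b c n Z) : Der 1 (b + 1) (c + 1) ((n + 3) ::ₘ Z) := by
  have h1 := Der.trunc 0 false false h
  simpa using h1

theorem R {b c n : ℕ} {Z : Multiset ℕ} (h : Der b c n Z) : Der 0 (b + 1) c ((n + 3) ::ₘ Z) := by
  have h1 := Der.raise 0 h
  simpa using h1

theorem rep_cons (k d : ℕ) (Z : Multiset ℕ) : replicate (k + 1) d + Z = d ::ₘ (replicate k d + Z) := by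
  rw [replicate_succ, cons_add]

theorem T5 {c : ℕ} {Z : Multiset ℕ} (h : Der 1 2 c Z) : Der 1 2 (c + 1) (5 ::ₘ Z) :=
  T (n := 2) h.swap.rot

theorem T5s (k : ℕ) {c : ℕ} {Z : Multiset ℕ} (h : Der 1 2 c Z) :
    Der 1 2 (c + k) (replicate k 5 + Z) := by
  induction k with
  | zero => simpa using h
  | succ k ih =>
    rw [rep_cons]
    exact T5 ih

theorem T6s (k : ℕ) {Z : Multiset ℕ} (h : Der 1 2 3 Z) : Der 1 2 3 (replicate k 6 + Z) := by
  induction k with
  | zero => simpa using h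
  | succ k ih =>
    rw [rep_cons]
    exact T (n := 3) ih

theorem T4 {b c : ℕ} {Z : Multiset ℕ} (h : Der 1 b c Z) : Der 1 (b + 1) (c + 1) (4 ::ₘ Z) :=
  T (n := 1) h.rot

theorem T4s (k : ℕ) {b c : ℕ} {Z : Multiset ℕ} (h : Der 1 b c Z) :
    Der 1 (b + k) (c + k) (replicate k 4 + Z) := by
  induction k with
  | zero => simpa using h
  | succ k ih =>
    rw [rep_cons]
    exact T4 ih

theorem insA (g x : ℕ) {Z : Multiset ℕ} (h : Der 1 2 (g + 2) Z) :
    Der 1 2 (g + x + 1 + 2) ((x + 5) ::ₘ (replicate x 4 + Z)) := by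
  have h1 := T4s x (h.swap.rot)
  have h2 : Der 1 (g + x + 2) (x + 2) (replicate x 4 + Z) := by
    rw [show g + x + 2 = g + 2 + x by omega, show x + 2 = 2 + x by omega]
    exact h1
  exact T (n := x + 2) h2

theorem insB (g j : ℕ) {Z : Multiset ℕ} (h : Der 1 2 (g + 2) Z) :
    Der 1 2 (j + 1 + 2) ((g + j + 5) ::ₘ (replicate j 4 + Z)) := by
  have h1 := T4s j h
  have h2 : Der 1 (j + 2) (g + j + 2) (replicate j 4 + Z) := by
    rw [show j + 2 = 2 + j by omega, show g + j + 2 = g + 2 + j by omega]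
    exact h1
  exact T (n := g + j + 2) h2

theorem fix {y : ℕ} (hy : 2 ≤ y) {Z : Multiset ℕ} (h : Der 1 2 4 Z) :
    Der 1 2 (y + 1 + 2) ((y + 5) ::ₘ (replicate y 4 + Z)) := by
  obtain ⟨w, rfl⟩ : ∃ w, y = w + 2 := ⟨y - 2, by omega⟩
  have h1 := T4s w h
  have h2 : Der (w + 2) 1 (w + 4) (replicate w 4 + Z) := by
    rw [show w + 2 = 2 + w by omega, show w + 4 = 4 + w by omega]
    exact h1.swap
  have h3 := R h2
  have h4 : Der 1 1 (w + 2 + 2) (4 ::ₘ ((w + 4 + 3) ::ₘ (replicate w 4 + Z))) := T (n := 1) h3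
  have h5 : Der 1 2 (w + 2 + 2 + 1) (4 ::ₘ (4 ::ₘ ((w + 4 + 3) ::ₘ (replicate w 4 + Z)))) :=
    T (n := 1) h4.swap.rot
  have e : (w + 2 + 5) ::ₘ (replicate (w + 2) 4 + Z) =
      4 ::ₘ (4 ::ₘ ((w + 4 + 3) ::ₘ (replicate w 4 + Z))) := by
    rw [rep_cons, rep_cons, show w + 2 + 5 = w + 4 + 3 by omega]
    simp only [← singleton_add]
    abel
  rw [e]
  exact h5

theorem six (q : ℕ) {c : ℕ} {Z : Multiset ℕ} (h : Der 1 2 c Z) :
    Der 1 2 (c + 2 * q) (replicate q 6 + (replicate q 4 + Z)) := by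
  induction q with
  | zero => simpa using h
  | succ q ih =>
    have h1 : Der 1 (c + 2 * q + 1) 3 (4 ::ₘ (replicate q 6 + (replicate q 4 + Z))) :=
      T (n := 1) ih.rot.swap
    have h2 := T (n := 3) h1
    have e : replicate (q + 1) 6 + (replicate (q + 1) 4 + Z) =
        (3 + 3) ::ₘ (4 ::ₘ (replicate q 6 + (replicate q 4 + Z))) := by
      rw [rep_cons, rep_cons]
      simp only [← singleton_add]
      abel
    rw [e]
    exact h2

theorem e001 (k : ℕ) : Der 0 0 1 (replicate k 4 + {3}) := by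
  induction k with
  | zero =>
    have h := R Der.done
    exact h.swap.rot
  | succ k ih =>
    rw [rep_cons]
    exact (R (n := 1) ih).swap.rot

theorem e111 (k : ℕ) : Der 1 1 1 (replicate k 4 + {3}) := by
  rcases k with _ | k
  · exact T Der.done
  · rw [rep_cons]
    exact T (n := 1) (e001 k)

theorem e012 (k : ℕ) : Der 0 1 2 (replicate (k + 1) 4 + {3}) := by
  rw [rep_cons]
  exact (R (n := 1) (e111 k)).swap.rot

/-- The final phase for states with facets of size `5`. -/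
theorem tail5 (k j : ℕ) :
    Der 1 2 2 (replicate (2 * j) 5 + (replicate (k + 1) 4 + {3})) ∧
    Der 0 1 2 (replicate (2 * j) 5 + (replicate (k + 1) 4 + {3})) := by
  induction j with
  | zero =>
    constructor
    · have h := T (n := 1) (e111 k)
      simpa [rep_cons] using h
    · simpa using e012 k
  | succ j ih =>
    obtain ⟨h1, h2⟩ := ih
    have e : replicate (2 * (j + 1)) 5 + (replicate (k + 1) 4 + {3}) =
        5 ::ₘ (5 ::ₘ (replicate (2 * j) 5 + (replicate (k + 1) 4 + {3}))) := by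
      rw [show 2 * (j + 1) = 2 * j + 1 + 1 by omega, rep_cons, rep_cons]
    rw [e]
    constructor
    · have h3 : Der 1 1 2 (5 ::ₘ (replicate (2 * j) 5 + (replicate (k + 1) 4 + {3}))) :=
        T (n := 2) h2
      exact T (n := 2) h3
    · have h3 : Der 0 2 2 (5 ::ₘ (replicate (2 * j) 5 + (replicate (k + 1) 4 + {3}))) :=
        R (n := 2) h1
      exact R (n := 2) h3

/-- Two facets of size `4` fill two places of the third facet. -/
theorem pair4 {c : ℕ} {Z : Multiset ℕ} (h : Der 0 1 c Z) : Der 0 1 (c + 2) (4 ::ₘ (4 ::ₘ Z)) := by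
  have h1 : Der 1 1 (c + 1) (4 ::ₘ Z) := T (n := 1) h.swap.rot
  have h2 : Der 0 (c + 2) 1 (4 ::ₘ (4 ::ₘ Z)) := R (n := 1) (b := c + 1) (c := 1) h1.rot.swap
  exact h2.swap.rot

theorem pairs4 (h k : ℕ) : Der 0 1 (2 * (h + 1)) (replicate (2 * h + 1 + k) 4 + {3}) := by
  induction h with
  | zero =>
    have h1 := e012 k
    rw [show 2 * 0 + 1 + k = k + 1 by omega]
    exact h1
  | succ h ih =>
    have h1 := pair4 ih
    rw [show 2 * (h + 1) + 1 + k = 2 * h + 1 + k + 1 + 1 by omega, rep_cons, rep_cons]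
    exact h1

/-- The final phase. -/
theorem fin {e g r4 r5 : ℕ} (hr4 : 1 ≤ r4) (hrel : 2 * r4 + r5 = 2 * e + 2 + g)
    (hI : r4 ≤ 2 * e + 1) : Der 1 2 (g + 2) (replicate r4 4 + (replicate r5 5 + {3})) := by
  have ec : replicate r4 4 + (replicate r5 5 + ({3} : Multiset ℕ)) =
      replicate r5 5 + (replicate r4 4 + {3}) := by abel
  rw [ec]
  rcases Nat.lt_or_ge r5 g with hlt | hge
  · obtain ⟨h, hh⟩ : ∃ h, g = r5 + 2 * (h + 1) := ⟨r4 - e - 2, by omega⟩
    obtain ⟨k, hk⟩ : ∃ k, r4 = 2 * h + 1 + k + 2 := ⟨r4 - (2 * h + 3), by omega⟩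
    have h1 := pairs4 h k
    have h2 : Der 1 1 (2 * (h + 1) + 1) (4 ::ₘ (replicate (2 * h + 1 + k) 4 + {3})) :=
      T (n := 1) h1.swap.rot
    have h3 : Der 1 2 (2 * (h + 1) + 2) (4 ::ₘ (4 ::ₘ (replicate (2 * h + 1 + k) 4 + {3}))) :=
      T (n := 1) h2.swap.rot
    have h4 := T5s r5 h3
    rw [show g + 2 = 2 * (h + 1) + 2 + r5 by omega, hk, rep_cons, rep_cons]
    exact h4
  · obtain ⟨j, hj⟩ : ∃ j, r5 = g + 2 * j := ⟨e + 1 - r4, by omega⟩
    obtain ⟨k, hk⟩ : ∃ k, r4 = k + 1 := ⟨r4 - 1, by omega⟩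
    have h1 := T5s g (tail5 k j).1
    rw [hj, hk, replicate_add, add_assoc, show g + 2 = 2 + g by omega]
    exact h1

end Pool.Agent.P3G
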