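import Pool.Agent.P3G.Game

/-!
# The start of the game (MP_a5fcbe_co)

`Tot Y` implies that there is a 3-polytope with the facet sizes `Y`: the tetrahedron with the facets `0, 1, 2, 3`; first the facets `1`, `2`, `3` get their further vertices by cuts
at vertices different from the vertex `1, 2, 3`, then the game is played from that vertex.
-/

set_option autoImplicit false

namespace Pool.Agent.P3G

open Pool.Agent.P3F

theorem stage (r : ℕ) {I : Finset ℕ} {sz : ℕ → ℕ} {Q : Finset (Finset ℕ)} (h : Chart I sz Q)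
    {i j p : ℕ} (hij : i ≠ j) (hip : i ≠ p) (hjp : j ≠ p) (hc : ({i, j, p} : Finset ℕ) ∈ Q) :
    ∃ (I' : Finset ℕ) (sz' : ℕ → ℕ) (Q' : Finset (Finset ℕ)), Chart I' sz' Q' ∧ I ⊆ I' ∧
      I'.card = I.card + r ∧ (∀ l ∈ I', l ∉ I → sz' l = 3) ∧ sz' i = sz i + r ∧
      (∀ l ∈ I, l ≠ i → sz' l = sz l) ∧ (0 < r → ∃ t ∈ I', t ∉ I ∧ ({i, j, t} : Finset ℕ) ∈ Q') ∧
      ∀ c ∈ Q, ¬ ({j, p} : Finset ℕ) ⊆ c → c ∈ Q' := by
  obtain ⟨J, sz', Q', h1, h2, h3, h4, h5, h6, h7, h8⟩ := raise_n r h hij hip hjp hc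
  refine ⟨I ∪ J, sz', Q', h3, Finset.subset_union_left, ?_, ?_, h5, h6, ?_, h8⟩
  · rw [Finset.card_union_of_disjoint h1, h2]
  · intro l hl hlI
    rcases Finset.mem_union.1 hl with h | h
    · exact absurd h hlI
    · exact h4 l h
  · intro hr
    obtain ⟨t, ht, ht2⟩ := h7 hr
    exact ⟨t, Finset.mem_union_right _ ht, fun h => Finset.disjoint_left.1 h1 h ht, ht2⟩

theorem St_of_chart {I : Finset ℕ} {sz : ℕ → ℕ} {Q : Finset (Finset ℕ)} (h : Chart I sz Q)
    (hsub : ({1, 2, 3} : Finset ℕ) ⊆ I) (hQ : ({1, 2, 3} : Finset ℕ) ∈ Q)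
    (h3 : ∀ l ∈ I, l ∉ ({1, 2, 3} : Finset ℕ) → sz l = 3) {n : ℕ} (hn : I.card = n + 4) :
    St (sz 1) (sz 2) (sz 3) (3 ::ₘ Multiset.replicate n 3) := by
  refine ⟨I \ {1, 2, 3}, sz, Q, 1, 2, 3, by decide, by decide, by decide, by simp, by simp, by simp,
    ?_, hQ, rfl, rfl, rfl, ?_⟩
  · have e : insert 1 (insert 2 (insert 3 (I \ {1, 2, 3}))) = I := by
      ext x
      simp only [Finset.mem_insert, Finset.mem_sdiff, Finset.mem_singleton]
      constructor
      · rintro (h | h | h | h)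
        · exact hsub (by simp [h])
        · exact hsub (by simp [h])
        · exact hsub (by simp [h])
        · exact h.1
      · intro h
        tauto
    rw [e]; exact h
  · rw [suf_const_map (c := 3) (fun l hl => by
      rw [Finset.mem_sdiff] at hl
      exact h3 l hl.1 hl.2), Finset.card_sdiff_of_subset hsub, hn]
    have e : ({1, 2, 3} : Finset ℕ).card = 3 := by decide
    rw [e, show n + 4 - 3 = n + 1 by omega, Multiset.replicate_succ]

theorem St_base (x y z : ℕ) :
    St (3 + x) (3 + y) (3 + z) (3 ::ₘ Multiset.replicate (x + y + z) 3) := by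
  have hsub0 : ({1, 2, 3} : Finset ℕ) ⊆ {0, 1, 2, 3} := by decide
  rcases Nat.eq_zero_or_pos x with hx | hx
  · subst hx
    obtain ⟨I1, s1, Q1, c1, u1, n1, a1, b1, e1, -, k1⟩ := stage y chart_tetra
      (i := 2) (j := 1) (p := 0) (by decide) (by decide) (by decide) (by decide)
    have q1 : ({1, 2, 3} : Finset ℕ) ∈ Q1 := k1 _ (by decide) (by decide)
    have q2 : ({3, 2, 0} : Finset ℕ) ∈ Q1 := k1 _ (by decide) (by decide)
    obtain ⟨I2, s2, Q2, c2, u2, n2, a2, b2, e2, -, k2⟩ := stage z c1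
      (i := 3) (j := 2) (p := 0) (by decide) (by decide) (by decide) q2
    have q3 : ({1, 2, 3} : Finset ℕ) ∈ Q2 := k2 _ q1 (by decide)
    have hI1 : ({1, 2, 3} : Finset ℕ) ⊆ I1 := hsub0.trans u1
    have h := St_of_chart c2 (hI1.trans u2) q3 (n := y + z) ?_ ?_
    · have f1 : s2 1 = 3 + 0 := by
        rw [e2 1 (hI1 (by decide)) (by decide), e1 1 (by decide) (by decide)]
      have f2 : s2 2 = 3 + y := by rw [e2 2 (hI1 (by decide)) (by decide), b1]
      have f3 : s2 3 = 3 + z := by rw [b2, e1 3 (by decide) (by decide)]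
      rw [f1, f2, f3] at h
      rw [Nat.zero_add]
      exact h
    · intro l hl hl3
      by_cases h1 : l ∈ I1
      · rw [e2 l h1 (by rintro rfl; exact hl3 (by decide))]
        by_cases h0 : l ∈ ({0, 1, 2, 3} : Finset ℕ)
        · rw [e1 l h0 (by rintro rfl; exact hl3 (by decide))]
        · exact a1 l h1 h0
      · exact a2 l hl h1
    · rw [n2, n1]
      have e : ({0, 1, 2, 3} : Finset ℕ).card = 4 := by decide
      rw [e]; omega
  · obtain ⟨I1, s1, Q1, c1, u1, n1, a1, b1, e1, w1, k1⟩ := stage x chart_tetra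
      (i := 1) (j := 2) (p := 0) (by decide) (by decide) (by decide) (by decide)
    have q1 : ({1, 2, 3} : Finset ℕ) ∈ Q1 := k1 _ (by decide) (by decide)
    have q2 : ({3, 1, 0} : Finset ℕ) ∈ Q1 := k1 _ (by decide) (by decide)
    obtain ⟨t, -, ht0, ht⟩ := w1 hx
    have t0 : t ≠ 0 := by rintro rfl; exact ht0 (by decide)
    have t1 : t ≠ 1 := by rintro rfl; exact ht0 (by decide)
    have t2 : t ≠ 2 := by rintro rfl; exact ht0 (by decide)
    have t3 : t ≠ 3 := by rintro rfl; exact ht0 (by decide)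
    have ht' : ({2, 1, t} : Finset ℕ) ∈ Q1 := by rw [Finset.insert_comm]; exact ht
    obtain ⟨I2, s2, Q2, c2, u2, n2, a2, b2, e2, -, k2⟩ := stage y c1
      (i := 2) (j := 1) (p := t) (by decide) (Ne.symm t2) (Ne.symm t1) ht'
    have q3 : ({1, 2, 3} : Finset ℕ) ∈ Q2 := by
      refine k2 _ q1 fun h => ?_
      have h5 : t ∈ ({1, 2, 3} : Finset ℕ) := h (by simp)
      simp only [Finset.mem_insert, Finset.mem_singleton] at h5
      omega
    have q4 : ({3, 1, 0} : Finset ℕ) ∈ Q2 := by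
      refine k2 _ q2 fun h => ?_
      have h5 : t ∈ ({3, 1, 0} : Finset ℕ) := h (by simp)
      simp only [Finset.mem_insert, Finset.mem_singleton] at h5
      omega
    obtain ⟨I3, s3, Q3, c3, u3, n3, a3, b3, e3, -, k3⟩ := stage z c2
      (i := 3) (j := 1) (p := 0) (by decide) (by decide) (by decide) q4
    have q5 : ({1, 2, 3} : Finset ℕ) ∈ Q3 := k3 _ q3 (by decide)
    have hI1 : ({1, 2, 3} : Finset ℕ) ⊆ I1 := hsub0.trans u1
    have hI2 : ({1, 2, 3} : Finset ℕ) ⊆ I2 := hI1.trans u2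
    have h := St_of_chart c3 (hI2.trans u3) q5 (n := x + y + z) ?_ ?_
    · have f1 : s3 1 = 3 + x := by
        rw [e3 1 (hI2 (by decide)) (by decide), e2 1 (hI1 (by decide)) (by decide), b1]
      have f2 : s3 2 = 3 + y := by
        rw [e3 2 (hI2 (by decide)) (by decide), b2, e1 2 (by decide) (by decide)]
      have f3 : s3 3 = 3 + z := by
        rw [b3, e2 3 (hI1 (by decide)) (by decide), e1 3 (by decide) (by decide)]
      rw [f1, f2, f3] at h
      exact h
    · intro l hl hl3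
      by_cases h2 : l ∈ I2
      · rw [e3 l h2 (by rintro rfl; exact hl3 (by decide))]
        by_cases h1 : l ∈ I1
        · rw [e2 l h1 (by rintro rfl; exact hl3 (by decide))]
          by_cases h0 : l ∈ ({0, 1, 2, 3} : Finset ℕ)
          · rw [e1 l h0 (by rintro rfl; exact hl3 (by decide))]
          · exact a1 l h1 h0
        · exact a2 l h2 h1
      · exact a3 l hl h2
    · rw [n3, n2, n1]
      have e : ({0, 1, 2, 3} : Finset ℕ).card = 4 := by decide
      rw [e]; omega

theorem Tot.sound {Y : Multiset ℕ} (h : Tot Y) : Rz Y := by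
  obtain ⟨a, b, c, x, y, z, Z, h1, rfl⟩ := h
  have h2 := h1.sound _ _ _ _ (St_base x y z) (by omega) (by omega) (by omega) (by
    intro k hk
    rw [Multiset.mem_cons] at hk
    rcases hk with h | h
    · omega
    · rw [Multiset.eq_of_mem_replicate h])
  have e : 3 ::ₘ (a + 3 + x) ::ₘ (b + 3 + y) ::ₘ (c + 3 + z) ::ₘ
      (Multiset.replicate (x + y + z) 3 + Z) =
      (3 + x + a) ::ₘ (3 + y + b) ::ₘ (3 + z + c) ::ₘ
        (Z + 3 ::ₘ Multiset.replicate (x + y + z) 3) := by
    rw [show a + 3 + x = 3 + x + a by omega, show b + 3 + y = 3 + y + b by omega,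
      show c + 3 + z = 3 + z + c by omega]
    simp only [← Multiset.singleton_add]
    abel
  rw [e]; exact h2

end Pool.Agent.P3G
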