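import Pool.Agent.P3G.Trans

/-!
# The two theorems (MP_a5fcbe_co)
-/

set_option autoImplicit false

namespace Pool.Agent.P3G

open Pool.Agent.P3F

theorem census_of_tot {p : ℕ →₀ ℕ} (h : Tot (Finsupp.toMultiset p)) : IsCensus p :=
  Rz_census h.sound

theorem even_sum (p : ℕ →₀ ℕ) : Even (Finsupp.toMultiset p).sum ↔
    Even (p.sum fun k m => k * m) := by
  rw [sum_eq]
  simp only [mul_comm]

theorem toM_ge {p : ℕ →₀ ℕ} (h3 : ∀ k, k < 3 → p k = 0) : ∀ k ∈ Finsupp.toMultiset p, 3 ≤ k := by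
  intro k hk
  by_contra hcon
  exact (Finsupp.mem_support_iff.1 (mem_toM.1 hk)) (h3 k (by omega))

theorem nec_one {p : ℕ →₀ ℕ} (h : IsCensus p) :
    ∀ k ∈ p.support, k + 1 ≤ ∑ j ∈ p.support, p j := by
  classical
  intro k hk
  obtain ⟨V, hV, hY⟩ := (census_iff p).1 h
  have hfull := full_hom hV
  have h1 : k ∈ (Fac (V.map (Pool.Agent.LPG.homE 3))).val.map Finset.card := by
    rw [hY]
    exact mem_toM.2 hk
  obtain ⟨F, hF, hFk⟩ := Multiset.mem_map.1 h1
  have h2 := fac_one hfull (F := F) hF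
  have h3 : (Fac (V.map (Pool.Agent.LPG.homE 3))).card = (Finsupp.toMultiset p).card := by
    rw [← hY, Multiset.card_map]
    rfl
  rw [← card_toM, ← h3]
  omega

theorem thm1 {p : ℕ →₀ ℕ} (h3 : ∀ k, k < 3 → p k = 0)
    (h : (∑ k ∈ p.support with 5 ≤ k, (k - 4) * p k) + 4 ≤ p 3) :
    IsCensus p ↔ Even (p.sum fun k m => k * m) := by
  rw [← even_sum]
  refine ⟨fun h => (nec h).1, fun he => census_of_tot (suf1 (toM_ge h3) he ?_)⟩
  rw [map_toM_filter, Finsupp.count_toMultiset]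
  exact h

theorem thm2 {p : ℕ →₀ ℕ} {m : ℕ} (h3 : ∀ k, k < 3 → p k = 0) (hm : 6 ≤ m) (c3 : 2 ≤ p 3)
    (c4 : 4 ≤ p 3 + p 4) (c5 : 1 ≤ p 5)
    (h : m + 5 + ∑ k ∈ p.support with 7 ≤ k, (k - 6) * p k ≤ p 3 + 2 * p 4 + p 5)
    (hH : ∑ k ∈ p.support with m < k, p k ≤ 2 ∨
      (∑ k ∈ p.support with m < k, (k - m) * p k) + 2 ≤ p 3) :
    IsCensus p ↔ Even (p.sum fun k m => k * m) ∧
      ∀ k ∈ p.support, k + 1 ≤ ∑ j ∈ p.support, p j := by
  rw [← even_sum]
  constructor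
  · intro h
    exact ⟨(nec h).1, nec_one h⟩
  · rintro ⟨he, hC⟩
    refine census_of_tot (suf2 (m := m) (toM_ge h3) he (fun k hk => ?_) hm ?_ ?_ ?_ ?_ ?_)
    · rw [card_toM]
      exact hC k (mem_toM.1 hk)
    · rw [Finsupp.count_toMultiset]; exact c3
    · rw [Finsupp.count_toMultiset, Finsupp.count_toMultiset]; exact c4
    · rw [Finsupp.count_toMultiset]; exact c5
    · rw [map_toM_filter, Finsupp.count_toMultiset, Finsupp.count_toMultiset,
        Finsupp.count_toMultiset]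
      exact h
    · rw [map_toM_filter, card_toM_filter, Finsupp.count_toMultiset]
      exact hH

end Pool.Agent.P3G
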