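import Pool.Agent.P3G.CoreZ
import Pool.Agent.P3G.Thm

/-!
# The theorem on facets with at most twelve vertices (MP_a5fcbe_co)
-/

set_option autoImplicit false

namespace Pool.Agent.P3G

open Pool.Agent.P3F Multiset

theorem D_eq (Y : Multiset ℕ) : ((Y.filter fun k => 7 ≤ k).map (· - 6)).sum =
    (Y.map (· - 6)).sum := by
  rw [filter_map_sum]
  refine congrArg _ (map_congr rfl fun k _ => ?_)
  split_ifs <;> omega

theorem sum_le_eight {W : Multiset ℕ} (h : ∀ k ∈ W, k ≤ 12) :
    (W.map (· - 4)).sum ≤ 8 * card W := by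
  induction W using Multiset.induction_on with
  | empty => simp
  | cons a W ih =>
    have h6 := ih fun k hk => h k (mem_cons_of_mem hk)
    have h7 := h a (mem_cons_self _ _)
    rw [map_cons, sum_cons, card_cons]
    omega

theorem tot12a {Y : Multiset ℕ} (h3 : ∀ k ∈ Y, 3 ≤ k ∧ k ≤ 12) (he : Even Y.sum)
    (ht : 24 ≤ count 3 Y) (h : 216 + (Y.map (· - 6)).sum ≤ 3 * count 3 Y + 2 * count 4 Y + count 5 Y) :
    Tot Y := by
  have hcard : count 3 Y ≤ card Y := count_le_card 3 Y
  by_cases hA : ((Y.filter fun k => 5 ≤ k).map (· - 4)).sum + 4 ≤ count 3 Y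
  · exact suf1 (fun k hk => (h3 k hk).1) he hA
  · by_cases hB : ∃ w ∈ Y, 6 ≤ w
    · obtain ⟨w, hw, hw6⟩ := hB
      have h8 := sum_le_eight (W := Y.filter fun k => 5 ≤ k) fun k hk =>
        (h3 k (mem_filter.1 hk).1).2
      obtain ⟨Y1, rfl⟩ := exists_cons_of_mem hw
      rw [filter_cons_of_pos (p := fun k => 5 ≤ k) _ (by omega), card_cons, map_cons,
        sum_cons] at h8
      rw [filter_cons_of_pos (p := fun k => 5 ≤ k) _ (by omega), map_cons, sum_cons] at hA
      have hw12 := (h3 w hw).2
      obtain ⟨v, hv⟩ : ∃ v, v ∈ Y1.filter fun k => 5 ≤ k := by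
        apply exists_mem_of_ne_zero
        intro h0
        rw [h0] at h8 hA
        simp at h8 hA
        omega
      obtain ⟨hv1, hv5⟩ := mem_filter.1 hv
      have hv12 := (h3 v (mem_cons_of_mem hv1)).2
      obtain ⟨Y2, rfl⟩ := exists_cons_of_mem hv1
      rw [filter_cons_of_pos (p := fun k => 5 ≤ k) _ hv5, card_cons, map_cons,
        sum_cons] at h8
      rw [filter_cons_of_pos (p := fun k => 5 ≤ k) _ hv5, map_cons, sum_cons] at hA
      obtain ⟨u, hu⟩ : ∃ u, u ∈ Y2.filter fun k => 5 ≤ k := by
        apply exists_mem_of_ne_zero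
        intro h0
        rw [h0] at h8 hA
        simp at h8 hA
        omega
      obtain ⟨hu1, hu5⟩ := mem_filter.1 hu
      have hu12 := (h3 u (mem_cons_of_mem (mem_cons_of_mem hu1))).2
      obtain ⟨Y3, rfl⟩ := exists_cons_of_mem hu1
      clear hA h8 hv hu hcard
      have hY3 : ∀ k ∈ Y3, 3 ≤ k ∧ k ≤ 12 := fun k hk =>
        h3 k (mem_cons_of_mem (mem_cons_of_mem (mem_cons_of_mem hk)))
      simp only [count_cons] at ht h
      rw [map_cons, map_cons, map_cons, sum_cons, sum_cons, sum_cons] at h
      rw [sum_cons, sum_cons, sum_cons] at he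
      have hsp := split7 fun k hk => (hY3 k hk).1
      have hs := sum_Yf (count 3 Y3) (count 4 Y3) (count 5 Y3) (count 6 Y3)
        ((Y3.filter fun k => 7 ≤ k).map (· - 5))
      rw [← hsp, card_map, sum_sub fun k hk => (mem_filter.1 hk).2] at hs
      have hD := D_eq Y3
      obtain ⟨r, hr⟩ := he
      have e3w : ¬ (3 = w) := by omega
      have e3v : ¬ (3 = v) := by omega
      have e3u : ¬ (3 = u) := by omega
      have e4w : ¬ (4 = w) := by omega
      have e4v : ¬ (4 = v) := by omega
      have e4u : ¬ (4 = u) := by omega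
      have e5w : ¬ (5 = w) := by omega
      simp only [e3w, e3v, e3u, e4w, e4v, e4u, e5w, if_false, add_zero] at ht h
      obtain ⟨c0, hc0⟩ : ∃ c0, count 3 Y3 = 1 + ((u - 4) + (v - 5) + (w - 6)) + c0 :=
        ⟨count 3 Y3 - 1 - ((u - 4) + (v - 5) + (w - 6)), by omega⟩
      rw [hD] at hs
      obtain ⟨q, hq⟩ : ∃ q, Y3.sum = count 3 Y3 + count 5 Y3 + (Y3.map (· - 6)).sum + 2 * q :=
        ⟨count 3 Y3 + 2 * count 4 Y3 + 2 * count 5 Y3 + 3 * count 6 Y3 +
          3 * card (Y3.filter fun k => 7 ≤ k), by rw [hs]; ring⟩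
      have hpar : (c0 + count 5 Y3 + (Y3.map (· - 6)).sum) % 2 = 0 := by
        clear h ht hs hD
        omega
      have hle : (Y3.map (· - 6)).sum + 168 ≤ 3 * c0 + 2 * count 4 Y3 + count 5 Y3 := by
        clear hs hr
        split_ifs at h <;> omega
      have hcore : Der 1 2 3 (Yf c0 (count 4 Y3) (count 5 Y3) (count 6 Y3)
          ((Y3.filter fun k => 7 ≤ k).map (· - 5))) := by
        refine coreZ (fun k hk => ⟨(mem_filter.1 hk).2, (hY3 k (mem_filter.1 hk).1).2⟩) (by omega)
          ?_ ⟨(3 * c0 + 2 * count 4 Y3 + count 5 Y3 -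
            ((Y3.filter fun k => 7 ≤ k).map (· - 6)).sum) / 2, ?_⟩
        · rw [hD]
          exact hle
        · rw [hD]
          clear hs hr h ht
          omega
      refine ⟨1, 2, 3, u - 4, v - 5, w - 6, _, hcore, ?_⟩
      have eY : Y3 = replicate (1 + ((u - 4) + (v - 5) + (w - 6))) 3 +
          Yf c0 (count 4 Y3) (count 5 Y3) (count 6 Y3)
            ((Y3.filter fun k => 7 ≤ k).map (· - 5)) := by
        conv_lhs => rw [hsp, hc0]
        unfold Yf
        rw [replicate_add (1 + ((u - 4) + (v - 5) + (w - 6))) c0, add_assoc]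
      rw [show 1 + 3 + (u - 4) = u by omega, show 2 + 3 + (v - 5) = v by omega,
        show 3 + 3 + (w - 6) = w by omega]
      conv_lhs => rw [eY, replicate_add 1, replicate_one]
      simp only [← singleton_add]
      abel
    · push Not at hB
      have hf0 : ∀ q : ℕ, 5 ≤ q → Y.filter (fun k => q < k) = 0 := by
        intro q hq
        rw [filter_eq_nil]
        intro k hk
        have := hB k hk
        omega
      have hf7 : Y.filter (fun k => 7 ≤ k) = 0 := by
        rw [filter_eq_nil]
        intro k hk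
        have := hB k hk
        omega
      have h5 : 1 ≤ count 5 Y := by
        rw [one_le_count_iff_mem]
        by_contra hcon
        apply hA
        have : Y.filter (fun k => 5 ≤ k) = 0 := by
          rw [filter_eq_nil]
          intro k hk h5
          have := hB k hk
          have h6 : k = 5 := by omega
          subst h6
          exact hcon hk
        rw [this]
        simp
        omega
      refine suf2 (m := 6) (fun k hk => (h3 k hk).1) he (fun k hk => ?_) le_rfl (by omega)
        (by omega) h5 ?_ (Or.inl ?_)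
      · have := (h3 k hk).2
        omega
      · rw [hf7, Multiset.map_zero, sum_zero]
        omega
      · rw [hf0 6 (by omega), card_zero]
        omega

theorem tot12 {Y : Multiset ℕ} (h3 : ∀ k ∈ Y, 3 ≤ k ∧ k ≤ 12) (he : Even Y.sum)
    (c3 : 2 ≤ count 3 Y) (c4 : 4 ≤ count 3 Y + count 4 Y) (c5 : 1 ≤ count 5 Y ∨ 24 ≤ count 3 Y)
    (h : 216 + (Y.map (· - 6)).sum ≤ 3 * count 3 Y + 2 * count 4 Y + count 5 Y) : Tot Y := by
  rcases Nat.lt_or_ge (count 3 Y) 24 with ht | ht
  · have h5 : 1 ≤ count 5 Y := c5.resolve_right (by omega)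
    have hf : Y.filter (fun k => 12 < k) = 0 := by
      rw [filter_eq_nil]
      intro k hk
      have := (h3 k hk).2
      omega
    have hcard : count 3 Y + count 4 Y + count 5 Y ≤ card Y := by
      have h1 := card_Yf (count 3 Y) (count 4 Y) (count 5 Y) (count 6 Y)
        ((Y.filter fun k => 7 ≤ k).map (· - 5))
      rw [← split7 fun k hk => (h3 k hk).1] at h1
      omega
    refine suf2 (m := 12) (fun k hk => (h3 k hk).1) he (fun k hk => ?_) (by omega) c3 c4 h5 ?_
      (Or.inl ?_)
    · have := (h3 k hk).2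
      omega
    · rw [D_eq]
      omega
    · rw [hf, card_zero]
      omega
  · exact tot12a h3 he ht h

theorem ra_many (j : ℕ) {d : ℕ} {R : Multiset ℕ} (hd : 4 ≤ d) (h : Tot (d ::ₘ R)) :
    Tot ((d + j) ::ₘ (replicate j 3 + R)) := by
  induction j with
  | zero => simpa using h
  | succ j ih =>
    have h1 := ih.ra rfl (by omega)
    rw [replicate_succ, cons_add]
    exact h1

theorem raise12 (W : Multiset ℕ) : ∀ R : Multiset ℕ, (∀ k ∈ W, 12 ≤ k) →
    Tot (replicate (card W) 12 + R) → Tot (replicate (W.map (· - 12)).sum 3 + (W + R)) := by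
  induction W using Multiset.induction_on with
  | empty =>
    intro R _ h
    simpa using h
  | cons a W ih =>
    intro R hW h
    have ha := hW a (mem_cons_self _ _)
    rw [card_cons, replicate_succ] at h
    have h1 := ih (12 ::ₘ R) (fun k hk => hW k (mem_cons_of_mem hk)) (by
      rw [add_cons]
      rw [cons_add] at h
      exact h)
    have h2 := ra_many (a - 12) (d := 12) (R := replicate (W.map (· - 12)).sum 3 + (W + R))
      (by omega) (by
        rw [add_cons, add_cons] at h1
        exact h1)
    rw [show 12 + (a - 12) = a by omega] at h2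
    rw [map_cons, sum_cons, replicate_add]
    have e : replicate (a - 12) 3 + replicate (W.map (· - 12)).sum 3 + (a ::ₘ W + R) =
        a ::ₘ (replicate (a - 12) 3 + (replicate (W.map (· - 12)).sum 3 + (W + R))) := by
      simp only [← singleton_add]
      abel
    rw [e]
    exact h2

/-- Part three. -/
theorem suf3 {Y : Multiset ℕ} {t : ℕ} (h3 : ∀ k ∈ Y, 3 ≤ k) (he : Even Y.sum)
    (ht : t + ((Y.filter fun k => 13 ≤ k).map (· - 12)).sum = count 3 Y) (c3 : 2 ≤ t)
    (c4 : 4 ≤ t + count 4 Y) (c5 : 1 ≤ count 5 Y ∨ 24 ≤ t)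
    (h : 216 + ((Y.filter fun k => 7 ≤ k ∧ k ≤ 12).map (· - 6)).sum +
      6 * card (Y.filter fun k => 13 ≤ k) ≤ 3 * t + 2 * count 4 Y + count 5 Y) : Tot Y := by
  obtain ⟨W, hW⟩ : ∃ W, W = Y.filter fun k => 13 ≤ k := ⟨_, rfl⟩
  obtain ⟨L, hL⟩ : ∃ L, L = Y.filter fun k => 4 ≤ k ∧ k ≤ 12 := ⟨_, rfl⟩
  have hW12 : ∀ k ∈ W, 12 ≤ k := by
    intro k hk
    rw [hW] at hk
    have := (mem_filter.1 hk).2
    omega
  have hLm : ∀ k ∈ L, 4 ≤ k ∧ k ≤ 12 := by
    intro k hk
    rw [hL] at hk
    exact (mem_filter.1 hk).2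
  have hsp : Y = replicate (count 3 Y) 3 + (L + W) := by
    ext a
    rw [count_add, count_add, count_replicate, hL, hW, count_filter, count_filter]
    by_cases h0 : a ∈ Y
    · have h1 := h3 a h0
      split_ifs <;> subst_vars <;> omega
    · have h1 := count_eq_zero_of_notMem h0
      rw [h1]
      split_ifs <;> subst_vars <;> omega
  rw [← hW] at ht h
  have hD : (L.map (· - 6)).sum = ((Y.filter fun k => 7 ≤ k ∧ k ≤ 12).map (· - 6)).sum := by
    rw [hL, filter_map_sum, filter_map_sum]
    refine congrArg _ (map_congr rfl fun k _ => ?_)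
    split_ifs <;> omega
  have hWs : W.sum = (W.map (· - 12)).sum + 12 * card W := by
    clear hsp hW ht h
    induction W using Multiset.induction_on with
    | empty => simp
    | cons a W ih =>
      have h6 := ih fun k hk => hW12 k (mem_cons_of_mem hk)
      have h7 := hW12 a (mem_cons_self _ _)
      rw [sum_cons, map_cons, sum_cons, card_cons, h6]
      omega
  have hc : ∀ a, 4 ≤ a → a ≤ 5 → count a L = count a Y := by
    intro a h4 h5
    rw [hL, count_filter, if_pos ⟨h4, by omega⟩]
  have hc3 : count 3 L = 0 := by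
    rw [hL, count_filter, if_neg (by omega)]
  have key : Tot (replicate (card W) 12 + (replicate t 3 + L)) := by
    refine tot12 ?_ ?_ ?_ ?_ ?_ ?_
    · intro k hk
      rw [mem_add, mem_add] at hk
      rcases hk with hk | hk | hk
      · have := eq_of_mem_replicate hk
        omega
      · have := eq_of_mem_replicate hk
        omega
      · have := hLm k hk
        omega
    · have e1 : Y.sum = (replicate (card W) 12 + (replicate t 3 + L)).sum +
          4 * (W.map (· - 12)).sum := by
        conv_lhs => rw [hsp]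
        rw [sum_add, sum_add, sum_add, sum_add, sum_replicate, sum_replicate, sum_replicate, hWs,
          ← ht]
        simp only [smul_eq_mul]
        ring
      obtain ⟨r, hr⟩ := he
      exact ⟨r - 2 * (W.map (· - 12)).sum, by omega⟩
    · rw [count_add, count_add, count_replicate, count_replicate, hc3]
      simp
      omega
    · rw [count_add, count_add, count_replicate, count_replicate, hc3, count_add, count_add,
        count_replicate, count_replicate, hc 4 le_rfl (by omega)]
      simp
      omega
    · rw [count_add, count_add, count_replicate, count_replicate, hc 5 (by omega) le_rfl,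
        count_add, count_add, count_replicate, count_replicate, hc3]
      simp
      exact c5
    · rw [count_add, count_add, count_replicate, count_replicate, hc3, count_add, count_add,
        count_replicate, count_replicate, hc 4 le_rfl (by omega), count_add, count_add,
        count_replicate, count_replicate, hc 5 (by omega) le_rfl, Multiset.map_add,
        Multiset.map_add, sum_add, sum_add, hD, map_replicate, map_replicate, sum_replicate,
        sum_replicate]
      simp
      omega
  have h1 := raise12 W _ hW12 key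
  have e : Y = replicate (W.map (· - 12)).sum 3 + (W + (replicate t 3 + L)) := by
    conv_lhs => rw [hsp]
    rw [← ht, replicate_add]
    abel
  rw [e]
  exact h1

theorem thm3 {p : ℕ →₀ ℕ} {t : ℕ} (h3 : ∀ k, k < 3 → p k = 0)
    (ht : t + ∑ k ∈ p.support with 13 ≤ k, (k - 12) * p k = p 3) (c3 : 2 ≤ t)
    (c4 : 4 ≤ t + p 4) (c5 : 1 ≤ p 5 ∨ 24 ≤ t)
    (h : 216 + ∑ k ∈ p.support with 7 ≤ k ∧ k ≤ 12, (k - 6) * p k +
      6 * ∑ k ∈ p.support with 13 ≤ k, p k ≤ 3 * t + 2 * p 4 + p 5) :
    IsCensus p ↔ Even (p.sum fun k m => k * m) := by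
  rw [← even_sum]
  refine ⟨fun h => (nec h).1, fun he => census_of_tot (suf3 (t := t) (toM_ge h3) he ?_ c3 ?_ ?_ ?_)⟩
  · rw [map_toM_filter, Finsupp.count_toMultiset]
    exact ht
  · rw [Finsupp.count_toMultiset]
    exact c4
  · rw [Finsupp.count_toMultiset]
    exact c5
  · rw [map_toM_filter, card_toM_filter, Finsupp.count_toMultiset, Finsupp.count_toMultiset]
    exact h

end Pool.Agent.P3G
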